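import Mathlib

/-!
# Orthogonal coordinates: definitions
-/

namespace Pool.Agent.Q185.OC

open scoped ContDiff Matrix

/-- A smooth Riemannian metric on an open subset of `ℝ^ι`, given by the matrix of its coefficients
in the standard coordinates. -/
structure LocalRiem (ι : Type) [Fintype ι] [DecidableEq ι] where
  /-- the domain -/
  U : Set (ι → ℝ)
  isOpen : IsOpen U
  /-- the coefficients -/
  g : (ι → ℝ) → Matrix ι ι ℝ
  smooth : ∀ i j, ContDiffOn ℝ ∞ (fun z => g z i j) U
  posDef : ∀ z ∈ U, (g z).PosDef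

variable {ι κ : Type} [Fintype ι] [DecidableEq ι] [Fintype κ] [DecidableEq κ]

/-- The scalar product of two tangent vectors at `z`. -/
def LocalRiem.inner (M : LocalRiem ι) (z u v : ι → ℝ) : ℝ := u ⬝ᵥ (M.g z *ᵥ v)

/-- The Riemannian manifold `(U, g)` admits orthogonal coordinates: every point has a smooth chart
(a homeomorphism `φ` between open sets, smooth in both directions) whose coordinate vector fields
are pairwise orthogonal.  The coordinate vector fields are the partial derivatives of the inverse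
`φ.symm` of the chart. -/
def LocalRiem.AdmitsOrthogonalCoordinates (M : LocalRiem ι) : Prop :=
  ∀ p ∈ M.U, ∃ φ : OpenPartialHomeomorph (ι → ℝ) (ι → ℝ), p ∈ φ.source ∧ φ.source ⊆ M.U ∧
    ContDiffOn ℝ ∞ φ φ.source ∧ ContDiffOn ℝ ∞ φ.symm φ.target ∧
    ∀ x ∈ φ.target, ∀ i j, i ≠ j →
      M.inner (φ.symm x) (fderiv ℝ φ.symm x (Pi.single i 1)) (fderiv ℝ φ.symm x (Pi.single j 1)) = 0

/-- The Riemannian product. -/
def LocalRiem.prod (M : LocalRiem ι) (N : LocalRiem κ) : LocalRiem (ι ⊕ κ) where
  U := {z | (fun i => z (Sum.inl i)) ∈ M.U ∧ (fun i => z (Sum.inr i)) ∈ N.U}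
  isOpen := (M.isOpen.preimage (by fun_prop)).inter (N.isOpen.preimage (by fun_prop))
  g z := Matrix.fromBlocks (M.g fun i => z (Sum.inl i)) 0 0 (N.g fun i => z (Sum.inr i))
  smooth := by
    rintro (i | i) (j | j)
    · exact (M.smooth i j).comp (g := fun z => M.g z i j)
        (f := fun (z : ι ⊕ κ → ℝ) (i : ι) => z (Sum.inl i)) (by fun_prop) (fun z hz => hz.1)
    · exact contDiffOn_const
    · exact contDiffOn_const
    · exact (N.smooth i j).comp (g := fun z => N.g z i j)
        (f := fun (z : ι ⊕ κ → ℝ) (i : κ) => z (Sum.inr i)) (by fun_prop) (fun z hz => hz.2)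
  posDef z hz := by
    have h1 := M.posDef _ hz.1
    have h2 := N.posDef _ hz.2
    refine Matrix.posDef_iff_dotProduct_mulVec.2 ⟨?_, fun {x} hx => ?_⟩
    · exact h1.1.fromBlocks (by simp) h2.1
    · have e1 : star x ⬝ᵥ (Matrix.fromBlocks (M.g fun i => z (Sum.inl i)) 0 0
          (N.g fun i => z (Sum.inr i)) *ᵥ x) =
          star (fun i => x (Sum.inl i)) ⬝ᵥ ((M.g fun i => z (Sum.inl i)) *ᵥ
            (fun i => x (Sum.inl i))) +
          star (fun i => x (Sum.inr i)) ⬝ᵥ ((N.g fun i => z (Sum.inr i)) *ᵥ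
            (fun i => x (Sum.inr i))) := by
        rw [Matrix.fromBlocks_mulVec]
        simp [dotProduct, Fintype.sum_sum_type, Function.comp_def]
      rw [e1]
      by_cases hx1 : (fun i => x (Sum.inl i)) = 0
      · have hx2 : (fun i => x (Sum.inr i)) ≠ 0 := by
          intro hx2
          apply hx
          ext (i | i)
          · exact congrFun hx1 i
          · exact congrFun hx2 i
        rw [hx1]
        simpa using (Matrix.posDef_iff_dotProduct_mulVec.1 h2).2 hx2
      · have a1 := (Matrix.posDef_iff_dotProduct_mulVec.1 h1).2 hx1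
        have a2 : 0 ≤ star (fun i => x (Sum.inr i)) ⬝ᵥ ((N.g fun i => z (Sum.inr i)) *ᵥ
            (fun i => x (Sum.inr i))) := by
          by_cases hx2 : (fun i => x (Sum.inr i)) = 0
          · rw [hx2]; simp
          · exact ((Matrix.posDef_iff_dotProduct_mulVec.1 h2).2 hx2).le
        linarith

lemma LocalRiem.prod_inner (M : LocalRiem ι) (N : LocalRiem κ) (z u v : ι ⊕ κ → ℝ) :
    (M.prod N).inner z u v =
      M.inner (fun i => z (Sum.inl i)) (fun i => u (Sum.inl i)) (fun i => v (Sum.inl i)) +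
      N.inner (fun i => z (Sum.inr i)) (fun i => u (Sum.inr i)) (fun i => v (Sum.inr i)) := by
  unfold LocalRiem.inner LocalRiem.prod
  rw [Matrix.fromBlocks_mulVec]
  simp [dotProduct, Fintype.sum_sum_type, Function.comp_def]

end Pool.Agent.Q185.OC
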