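import Pool.Agent.Q185.OC.Frame
import Pool.Agent.Q185.OC.Defs

/-!
# The four-dimensional factor
-/

namespace Pool.Agent.Q185.OC

open scoped ContDiff Matrix
open Finset Filter Topology Pool.Agent.Q185.DR

/-- The partial derivatives of `f(z) = (z₀ + z₁ + z₂ + z₃) (1/5 + z₀ z₁ z₂ z₃)`. -/
noncomputable def gradF (z : Fin 4 → ℝ) (i : Fin 4) : ℝ :=
  1 / 5 + (∏ j ∈ univ.erase i, z j) * (z i + ∑ j, z j)

lemma gradF_eq (z : Fin 4 → ℝ) : gradF z = Ff (1 / 5) z := by
  have h0 : (univ.erase (0 : Fin 4)) = {1, 2, 3} := by decide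
  have h1 : (univ.erase (1 : Fin 4)) = {0, 2, 3} := by decide
  have h2 : (univ.erase (2 : Fin 4)) = {0, 1, 3} := by decide
  have h3 : (univ.erase (3 : Fin 4)) = {0, 1, 2} := by decide
  ext i
  fin_cases i
  · show gradF z 0 = Ff (1 / 5) z 0
    rw [gradF, h0]
    simp [Ff, Fin.sum_univ_four]; ring
  · show gradF z 1 = Ff (1 / 5) z 1
    rw [gradF, h1]
    simp [Ff, Fin.sum_univ_four]; ring
  · show gradF z 2 = Ff (1 / 5) z 2
    rw [gradF, h2]
    simp [Ff, Fin.sum_univ_four]; ring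
  · show gradF z 3 = Ff (1 / 5) z 3
    rw [gradF, h3]
    simp [Ff, Fin.sum_univ_four]; ring

lemma gradF_bound {z : Fin 4 → ℝ} (hz : ∀ i, |z i| < 1 / 4) (i : Fin 4) :
    |gradF z i - 1 / 5| ≤ 5 / 256 := by
  have h1 : gradF z i - 1 / 5 = (∏ j ∈ univ.erase i, z j) * (z i + ∑ j, z j) := by
    unfold gradF; ring
  rw [h1, abs_mul, abs_prod]
  have h2 : ∏ j ∈ univ.erase i, |z j| ≤ ∏ j ∈ univ.erase i, (1 / 4 : ℝ) :=
    prod_le_prod (fun j _ => abs_nonneg _) (fun j _ => (hz j).le)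
  rw [prod_const, card_erase_of_mem (mem_univ i), card_univ, Fintype.card_fin] at h2
  have h3 : |z i + ∑ j, z j| ≤ 5 / 4 := by
    rw [Fin.sum_univ_four]
    have a0 := abs_lt.1 (hz 0)
    have a1 := abs_lt.1 (hz 1)
    have a2 := abs_lt.1 (hz 2)
    have a3 := abs_lt.1 (hz 3)
    have ai := abs_lt.1 (hz i)
    rw [abs_le]
    constructor <;> linarith [a0.1, a0.2, a1.1, a1.2, a2.1, a2.2, a3.1, a3.2, ai.1, ai.2]
  calc _ ≤ (1 / 4 : ℝ) ^ (4 - 1) * (5 / 4) := by
        apply mul_le_mul h2 h3 (abs_nonneg _) (by positivity)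
    _ = 5 / 256 := by norm_num

/-- The coefficients of the metric `∑ f_i dz_i² - df²`. -/
noncomputable def coef (z : Fin 4 → ℝ) : Matrix (Fin 4) (Fin 4) ℝ :=
  Matrix.of fun i j => (if i = j then gradF z i else 0) - gradF z i * gradF z j

lemma coef_form (z u v : Fin 4 → ℝ) : u ⬝ᵥ (coef z *ᵥ v) = gm (gradF z) u v := by
  simp [dotProduct, Matrix.mulVec, coef, gm, lin, Fin.sum_univ_four]
  ring

lemma gm_pos {F x : Fin 4 → ℝ} (hF : ∀ i, 0 < F i) (hs : ∑ i, F i < 1) (hx : x ≠ 0) :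
    0 < gm F x x := by
  have h1 : (∑ i, F i * x i) ^ 2 ≤ (∑ i, F i) * ∑ i, F i * (x i) ^ 2 :=
    sum_sq_le_sum_mul_sum_of_sq_le_mul _ (fun i _ => (hF i).le)
      (fun i _ => mul_nonneg (hF i).le (sq_nonneg _)) (fun i _ => le_of_eq (by ring))
  have h2 : 0 < ∑ i, F i * (x i) ^ 2 := by
    obtain ⟨i, hi⟩ := Function.ne_iff.1 hx
    refine sum_pos' (fun i _ => mul_nonneg (hF i).le (sq_nonneg _)) ⟨i, mem_univ i, ?_⟩
    exact mul_pos (hF i) (pow_pos_of_ne hi)
  have h3 : gm F x x = ∑ i, F i * (x i) ^ 2 - (∑ i, F i * x i) ^ 2 := by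
    unfold gm lin
    rw [pow_two (∑ i, F i * x i)]
    congr 1
    refine sum_congr rfl fun i _ => ?_
    simp only [Pi.mul_apply]; ring
  rw [h3]
  nlinarith
where
  pow_pos_of_ne {y : ℝ} (hy : y ≠ 0) : 0 < y ^ 2 := by positivity

/-- The first factor: the cube `|z_i| < 1/4` in `ℝ⁴` with the metric `∑ f_i dz_i² - df²`. -/
noncomputable def M₁ : LocalRiem (Fin 4) where
  U := {z | ∀ i, |z i| < 1 / 4}
  isOpen := by
    have : {z : Fin 4 → ℝ | ∀ i, |z i| < 1 / 4} = ⋂ i, {z | |z i| < 1 / 4} := by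
      ext z; simp
    rw [this]
    exact isOpen_iInter_of_finite fun i => isOpen_lt (by fun_prop) continuous_const
  g := coef
  smooth i j := by
    have h1 : ∀ i, ContDiff ℝ ∞ (fun z => gradF z i) := by
      intro i
      unfold gradF
      refine contDiff_const.add (ContDiff.mul ?_ ?_)
      · exact contDiff_prod fun j _ => by fun_prop
      · fun_prop
    have h2 : ContDiff ℝ ∞ (fun z => coef z i j) := by
      show ContDiff ℝ ∞ (fun z => (if i = j then gradF z i else 0) - gradF z i * gradF z j)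
      split_ifs
      · exact (h1 i).sub ((h1 i).mul (h1 j))
      · exact contDiff_const.sub ((h1 i).mul (h1 j))
    exact h2.contDiffOn
  posDef z hz := by
    refine Matrix.posDef_iff_dotProduct_mulVec.2 ⟨?_, fun {x} hx => ?_⟩
    · ext i j
      simp only [Matrix.conjTranspose_apply, coef, Matrix.of_apply, star_trivial]
      by_cases h : i = j
      · subst h; rfl
      · rw [if_neg h, if_neg (Ne.symm h)]; ring
    · rw [star_trivial, coef_form]
      have hb := gradF_bound hz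
      refine gm_pos (fun i => ?_) ?_ hx
      · have := (abs_le.1 (hb i)).1; linarith
      · rw [Fin.sum_univ_four]
        have a0 := (abs_le.1 (hb 0)).2
        have a1 := (abs_le.1 (hb 1)).2
        have a2 := (abs_le.1 (hb 2)).2
        have a3 := (abs_le.1 (hb 3)).2
        linarith

lemma M₁_inner (z u v : Fin 4 → ℝ) : M₁.inner z u v = gm (Ff (1 / 5) z) u v := by
  rw [← gradF_eq]; exact coef_form z u v

section Ring

variable {R S : Type*} [CommRing R] [CommRing S]

lemma map_Ff (φ : R →+* S) (c : R) (z : Fin 4 → R) (s : Fin 4) :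
    φ (Ff c z s) = Ff (φ c) (fun i => φ (z i)) s := by
  have h2 : φ 2 = 2 := map_ofNat φ 2
  fin_cases s <;> simp [Ff, h2]

lemma map_Hf (φ : R →+* S) (z : Fin 4 → R) (s r : Fin 4) :
    φ (Hf z s r) = Hf (fun i => φ (z i)) s r := by
  have h2 : φ 2 = 2 := map_ofNat φ 2
  fin_cases s <;> fin_cases r <;> simp [Hf, h2]

lemma map_Kf (φ : R →+* S) (z : Fin 4 → R) (s r t : Fin 4) :
    φ (Kf z s r t) = Kf (fun i => φ (z i)) s r t := by
  have h2 : φ 2 = 2 := map_ofNat φ 2
  fin_cases s <;> fin_cases r <;> fin_cases t <;> simp [Kf, h2]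

end Ring

lemma ga_smulH (F : Fin 4 → ℝ) (H : Fin 4 → Fin 4 → ℝ) (c : ℝ) (a b d : Fin 4 → ℝ) :
    ga F (fun s r => c * H s r) a b d = c * ga F H a b d := by
  have h1 : ∀ a b, bil (fun s r => c * H s r) a b = c * bil H a b := by
    intro a b
    unfold bil
    rw [mul_sum]
    refine sum_congr rfl fun s _ => ?_
    rw [mul_sum]
    refine sum_congr rfl fun r _ => ?_
    ring
  unfold ga
  rw [h1, h1, h1, h1]; ring

lemma Rq_smul (κ : Fin 4 → Fin 4 → Fin 4 → ℝ) (c : ℝ) (x y z w : Fin 4 → ℝ) :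
    Rq (fun s r t => c * κ s r t) x y z w = c * Rq κ x y z w := by
  have h1 : ∀ a b d, tri (fun s r t => c * κ s r t) a b d = c * tri κ a b d := by
    intro a b d
    unfold tri
    rw [mul_sum]
    refine sum_congr rfl fun s _ => ?_
    rw [mul_sum]
    refine sum_congr rfl fun r _ => ?_
    rw [mul_sum]
    refine sum_congr rfl fun t _ => ?_
    ring
  unfold Rq
  rw [h1, h1, h1, h1]; ring

/-- The right hand side of the curvature identity, without the factor. -/
noncomputable def Bq (f : Fin 4 → ℝ) (h : Fin 4 → Fin 4 → ℝ) (u : Fin 4 → Fin 4 → ℝ)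
    (i j k l : Fin 4) : ℝ :=
  2 * bil h (u i) (u j) * bil h (u k) (u l) - 2 * bil h (u l) (u j) * bil h (u k) (u i) +
      (∑ m, ga f h (u i) (u j) (u m) * ga f h (u k) (u l) (u m) / (2 * gm f (u m) (u m)) -
        ∑ m, ga f h (u l) (u j) (u m) * ga f h (u k) (u i) (u m) / (2 * gm f (u m) (u m)))

lemma Bq_smul (f : Fin 4 → ℝ) (h : Fin 4 → Fin 4 → ℝ) (u : Fin 4 → Fin 4 → ℝ) (c : ℝ)
    (i j k l : Fin 4) : Bq f (fun s r => c * h s r) u i j k l = c ^ 2 * Bq f h u i j k l := by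
  have h1 : ∀ a b, bil (fun s r => c * h s r) a b = c * bil h a b := by
    intro a b
    unfold bil
    rw [mul_sum]
    refine sum_congr rfl fun s _ => ?_
    rw [mul_sum]
    refine sum_congr rfl fun r _ => ?_
    ring
  unfold Bq
  rw [h1, h1, h1, h1]
  simp only [ga_smulH]
  rw [mul_add, mul_sub (c ^ 2), mul_sub (c ^ 2), mul_sum, mul_sum]
  congr 1
  · ring
  · congr 1
    · refine sum_congr rfl fun m _ => ?_
      rw [← mul_div_assoc]; congr 1; ring
    · refine sum_congr rfl fun m _ => ?_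
      rw [← mul_div_assoc]; congr 1; ring

end Pool.Agent.Q185.OC
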