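import Pool.Agent.Q185.DR.Ring

/-!
# Orthogonal coordinates: the differential algebra

The metric `g(a,b) = ∑ F_s a_s b_s - (∑ F_s a_s) (∑ F_s b_s)`, where `F` is the gradient of a
function with Hessian `H` and third derivative `K`.
-/

namespace Pool.Agent.Q185.OC

open Finset

section Forms

variable {R : Type*} [CommRing R] {n : ℕ}

/-- The linear form with coefficients `F`. -/
def lin (F a : Fin n → R) : R := ∑ s, F s * a s

/-- The bilinear form with coefficients `H`. -/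
def bil (H : Fin n → Fin n → R) (a b : Fin n → R) : R := ∑ s, ∑ r, H s r * a s * b r

/-- The trilinear form with coefficients `K`. -/
def tri (K : Fin n → Fin n → Fin n → R) (a b c : Fin n → R) : R :=
  ∑ s, ∑ r, ∑ t, K s r t * a s * b r * c t

/-- The metric. -/
def gm (F a b : Fin n → R) : R := lin F (a * b) - lin F a * lin F b

/-- Twice the Christoffel symbol of the first kind. -/
def ga (F : Fin n → R) (H : Fin n → Fin n → R) (a b c : Fin n → R) : R :=
  bil H a (b * c) + bil H b (a * c) - bil H c (a * b) - 2 * bil H a b * lin F c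

lemma lin_add (F a b : Fin n → R) : lin F (a + b) = lin F a + lin F b := by
  simp [lin, mul_add, sum_add_distrib]

lemma bil_add_left (H : Fin n → Fin n → R) (a b c : Fin n → R) :
    bil H (a + b) c = bil H a c + bil H b c := by
  simp [bil, mul_add, add_mul, sum_add_distrib]

lemma bil_add_right (H : Fin n → Fin n → R) (a b c : Fin n → R) :
    bil H a (b + c) = bil H a b + bil H a c := by
  simp [bil, mul_add, sum_add_distrib]

lemma bil_comm {H : Fin n → Fin n → R} (hH : ∀ s r, H s r = H r s) (a b : Fin n → R) :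
    bil H a b = bil H b a := by
  unfold bil
  rw [sum_comm]
  refine sum_congr rfl fun s _ => sum_congr rfl fun r _ => ?_
  rw [hH r s]; ring

lemma tri_swap12 {K : Fin n → Fin n → Fin n → R} (hK : ∀ s r t, K s r t = K r s t)
    (a b c : Fin n → R) : tri K a b c = tri K b a c := by
  unfold tri
  rw [sum_comm]
  refine sum_congr rfl fun s _ => sum_congr rfl fun r _ => sum_congr rfl fun t _ => ?_
  rw [hK r s t]; ring

lemma tri_swap23 {K : Fin n → Fin n → Fin n → R} (hK : ∀ s r t, K s r t = K s t r)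
    (a b c : Fin n → R) : tri K a b c = tri K a c b := by
  unfold tri
  refine sum_congr rfl fun s _ => ?_
  rw [sum_comm]
  refine sum_congr rfl fun r _ => sum_congr rfl fun t _ => ?_
  rw [hK s t r]; ring

lemma gm_comm (F a b : Fin n → R) : gm F a b = gm F b a := by
  unfold gm; rw [mul_comm a b]; ring

end Forms

section Ring

open Pool.Agent.Q185.DR

variable {n : ℕ} {U : TopologicalSpace.Opens (Fin n → ℝ)}

/-- The derivative of a vector. -/
noncomputable def Dv (l : Fin n) (a : Fin n → Sm U) : Fin n → Sm U := fun s => D l (a s)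

lemma Dv_mul (l : Fin n) (a b : Fin n → Sm U) : Dv l (a * b) = Dv l a * b + a * Dv l b := by
  ext1 s; exact D_mul l (a s) (b s)

lemma D_sum {ι : Type*} (l : Fin n) (t : Finset ι) (f : ι → Sm U) :
    D l (∑ i ∈ t, f i) = ∑ i ∈ t, D l (f i) := map_sum (Der l) f t

lemma Dv_comm (l m : Fin n) (a : Fin n → Sm U) : Dv l (Dv m a) = Dv m (Dv l a) := by
  ext1 s; exact D_comm l m (a s)

variable {Z F : Fin n → Sm U} {H : Fin n → Fin n → Sm U} {K : Fin n → Fin n → Fin n → Sm U}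

lemma D_lin (hF : ∀ l s, D l (F s) = ∑ r, H s r * D l (Z r)) (l : Fin n) (a : Fin n → Sm U) :
    D l (lin F a) = bil H a (Dv l Z) + lin F (Dv l a) := by
  unfold lin bil
  rw [D_sum, ← sum_add_distrib]
  refine sum_congr rfl fun s _ => ?_
  rw [D_mul, hF, sum_mul]
  congr 1
  refine sum_congr rfl fun r _ => ?_
  show H s r * D l (Z r) * a s = H s r * a s * D l (Z r)
  ring

lemma D_bil (hH : ∀ l s r, D l (H s r) = ∑ t, K s r t * D l (Z t)) (l : Fin n)
    (a b : Fin n → Sm U) :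
    D l (bil H a b) = tri K a b (Dv l Z) + bil H (Dv l a) b + bil H a (Dv l b) := by
  unfold tri bil
  rw [D_sum, ← sum_add_distrib, ← sum_add_distrib]
  refine sum_congr rfl fun s _ => ?_
  rw [D_sum, ← sum_add_distrib, ← sum_add_distrib]
  refine sum_congr rfl fun r _ => ?_
  have h1 : D l (H s r * a s * b r) = (∑ t, K s r t * D l (Z t)) * (a s * b r) +
      H s r * D l (a s) * b r + H s r * a s * D l (b r) := by
    rw [D_mul, D_mul, hH]; ring
  rw [h1, sum_mul]
  have h2 : ∑ t, K s r t * D l (Z t) * (a s * b r) = ∑ t, K s r t * a s * b r * Dv l Z t := by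
    refine sum_congr rfl fun t _ => ?_
    show K s r t * D l (Z t) * (a s * b r) = K s r t * a s * b r * D l (Z t)
    ring
  rw [h2]
  rfl

lemma D_gm (hF : ∀ l s, D l (F s) = ∑ r, H s r * D l (Z r)) (l : Fin n) (a b : Fin n → Sm U) :
    D l (gm F a b) = bil H (a * b) (Dv l Z) - bil H a (Dv l Z) * lin F b -
      lin F a * bil H b (Dv l Z) + gm F (Dv l a) b + gm F a (Dv l b) := by
  unfold gm
  rw [D_sub, D_mul, D_lin hF, D_lin hF, D_lin hF, Dv_mul, lin_add]
  ring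

lemma D_ga (hF : ∀ l s, D l (F s) = ∑ r, H s r * D l (Z r))
    (hH : ∀ l s r, D l (H s r) = ∑ t, K s r t * D l (Z t)) (l : Fin n) (a b c : Fin n → Sm U) :
    D l (ga F H a b c) = tri K a (b * c) (Dv l Z) + tri K b (a * c) (Dv l Z) -
      tri K c (a * b) (Dv l Z) - 2 * tri K a b (Dv l Z) * lin F c -
      2 * bil H a b * bil H c (Dv l Z) + ga F H (Dv l a) b c + ga F H a (Dv l b) c +
      ga F H a b (Dv l c) := by
  have h2 : D l (2 : Sm U) = 0 := D_ofNat l 2
  unfold ga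
  rw [D_sub, D_sub, D_add, D_mul, D_mul, h2, D_bil hH, D_bil hH, D_bil hH, D_bil hH, D_lin hF,
    Dv_mul, Dv_mul, Dv_mul, bil_add_right, bil_add_right, bil_add_right]
  ring

/-- The relations between the first derivatives. -/
lemma first (hs : ∀ s r, H s r = H r s) (hF : ∀ l s, D l (F s) = ∑ r, H s r * D l (Z r))
    (hor : ∀ j k, j ≠ k → gm F (Dv j Z) (Dv k Z) = 0) {i j k : Fin n} (hij : i ≠ j) (hik : i ≠ k)
    (hjk : j ≠ k) :
    2 * gm F (Dv i (Dv j Z)) (Dv k Z) + ga F H (Dv i Z) (Dv j Z) (Dv k Z) = 0 := by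
  have h1 := congrArg (D i) (hor j k hjk)
  have h2 := congrArg (D j) (hor i k hik)
  have h3 := congrArg (D k) (hor i j hij)
  rw [D_gm hF, D_zero] at h1 h2 h3
  rw [Dv_comm j i] at h2
  rw [Dv_comm k i, Dv_comm k j] at h3
  have e1 := bil_comm hs (Dv j Z * Dv k Z) (Dv i Z)
  have e2 := bil_comm hs (Dv i Z * Dv k Z) (Dv j Z)
  have e3 := bil_comm hs (Dv i Z * Dv j Z) (Dv k Z)
  have e4 := bil_comm hs (Dv j Z) (Dv i Z)
  have e5 := bil_comm hs (Dv k Z) (Dv i Z)
  have e6 := bil_comm hs (Dv k Z) (Dv j Z)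
  have g1 := gm_comm F (Dv j Z) (Dv i (Dv k Z))
  have g2 := gm_comm F (Dv i Z) (Dv j (Dv k Z))
  rw [e1, e4, e5] at h1
  rw [e2, e6] at h2
  rw [e3] at h3
  rw [g1] at h1
  rw [g2] at h2 h3
  unfold ga
  linear_combination h1 + h2 - h3

/-- The curvature identity, before the elimination of the second derivatives. -/
lemma second (hs : ∀ s r, H s r = H r s) (hK12 : ∀ s r t, K s r t = K r s t)
    (hK23 : ∀ s r t, K s r t = K s t r)
    (hF : ∀ l s, D l (F s) = ∑ r, H s r * D l (Z r))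
    (hH : ∀ l s r, D l (H s r) = ∑ t, K s r t * D l (Z t))
    (hor : ∀ j k, j ≠ k → gm F (Dv j Z) (Dv k Z) = 0) {i j k l : Fin n} (hij : i ≠ j) (hik : i ≠ k)
    (hjk : j ≠ k) (hlj : l ≠ j) (hlk : l ≠ k) :
    2 * gm F (Dv i (Dv j Z)) (Dv k (Dv l Z)) + ga F H (Dv k Z) (Dv l Z) (Dv i (Dv j Z)) +
      ga F H (Dv i Z) (Dv j Z) (Dv k (Dv l Z)) +
      (tri K (Dv j Z) (Dv i Z * Dv k Z) (Dv l Z) - tri K (Dv k Z) (Dv i Z * Dv j Z) (Dv l Z) -
        2 * bil H (Dv i Z) (Dv j Z) * bil H (Dv k Z) (Dv l Z)) =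
    2 * gm F (Dv l (Dv j Z)) (Dv k (Dv i Z)) + ga F H (Dv k Z) (Dv i Z) (Dv l (Dv j Z)) +
      ga F H (Dv l Z) (Dv j Z) (Dv k (Dv i Z)) +
      (tri K (Dv j Z) (Dv l Z * Dv k Z) (Dv i Z) - tri K (Dv k Z) (Dv l Z * Dv j Z) (Dv i Z) -
        2 * bil H (Dv l Z) (Dv j Z) * bil H (Dv k Z) (Dv i Z)) := by
  have h1 := congrArg (D l) (first hs hF hor hij hik hjk)
  have h2 := congrArg (D i) (first hs hF hor hlj hlk hjk)
  have d2 : ∀ m : Fin n, D m (2 : Sm U) = 0 := fun m => D_ofNat m 2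
  rw [D_add, D_mul, d2, D_gm hF, D_ga hF hH, D_zero] at h1 h2
  -- symmetry of the iterated derivatives
  have c1 : Dv i (Dv l (Dv j Z)) = Dv l (Dv i (Dv j Z)) := Dv_comm _ _ _
  have c2 : Dv l (Dv k Z) = Dv k (Dv l Z) := Dv_comm _ _ _
  have c3 : Dv i (Dv k Z) = Dv k (Dv i Z) := Dv_comm _ _ _
  have c4 : Dv i (Dv l Z) = Dv l (Dv i Z) := Dv_comm _ _ _
  rw [c2] at h1
  rw [c1, c3, c4] at h2
  -- symmetry of the forms
  have T1 : tri K (Dv i Z) (Dv j Z * Dv k Z) (Dv l Z) =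
      tri K (Dv l Z) (Dv j Z * Dv k Z) (Dv i Z) := by
    rw [tri_swap12 hK12, tri_swap23 hK23, tri_swap12 hK12]
  have T2 : tri K (Dv i Z) (Dv j Z) (Dv l Z) = tri K (Dv l Z) (Dv j Z) (Dv i Z) := by
    rw [tri_swap12 hK12, tri_swap23 hK23, tri_swap12 hK12]
  unfold ga at h1 h2 ⊢
  have b1 := bil_comm hs (Dv i (Dv j Z) * Dv k Z) (Dv l Z)
  have b2 := bil_comm hs (Dv i (Dv j Z)) (Dv l Z)
  have b4 := bil_comm hs (Dv l (Dv j Z) * Dv k Z) (Dv i Z)
  have b5 := bil_comm hs (Dv l (Dv j Z)) (Dv i Z)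
  have m1 := mul_comm (Dv l Z) (Dv i (Dv j Z))
  have m2 := mul_comm (Dv i Z) (Dv l (Dv j Z))
  have m3 := mul_comm (Dv k Z) (Dv l Z)
  have m4 := mul_comm (Dv k Z) (Dv i Z)
  have m5 := mul_comm (Dv k Z) (Dv i (Dv j Z))
  have m6 := mul_comm (Dv k Z) (Dv l (Dv j Z))
  simp only [m1, m2, m3, m4, m5, m6, b1, b2, b4, b5] at h1 h2 ⊢
  linear_combination h1 - h2 - T1 + 2 * lin F (Dv k Z) * T2

end Ring

end Pool.Agent.Q185.OC
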