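import Pool.Agent.Q185.OC.Poly

/-!
# No frame satisfies all the leading order conditions
-/

namespace Pool.Agent.Q185.OC

open Finset

set_option linter.unusedSimpArgs false

/-- The leading order curvature component of the frame `(i,j,k,l)` for the cubic form `κ`. -/
def Rq (κ : Fin 4 → Fin 4 → Fin 4 → ℝ) (a b c d : Fin 4 → ℝ) : ℝ :=
  tri κ a (d * b) c - tri κ b (d * a) c - tri κ a (c * b) d + tri κ b (c * a) d

/-- A minor. -/
def mn (a b : Fin 4 → ℝ) (p q : Fin 4) : ℝ := a p * b q - a q * b p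

/-- The coefficient of a product of three different variables. -/
def Yc (a b c d : Fin 4 → ℝ) (p q r : Fin 4) : ℝ :=
  mn a b p q * mn c d p r + mn a b p r * mn c d p q + mn a b q p * mn c d q r +
    mn a b q r * mn c d q p + mn a b r p * mn c d r q + mn a b r q * mn c d r p

/-- The symmetric product of three linear forms. -/
def sq (α β γ : Fin 4 → ℝ) (s r t : Fin 4) : ℝ :=
  α s * β r * γ t + α s * γ r * β t + β s * α r * γ t + β s * γ r * α t + γ s * α r * β t +
    γ s * β r * α t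

lemma Rq_Kf (v a b c d : Fin 4 → ℝ) :
    Rq (Kf v) a b c d =
      4 * (v 2 * v 3) * (mn a b 0 1 * mn c d 0 1) + 4 * (v 1 * v 3) * (mn a b 0 2 * mn c d 0 2) +
      4 * (v 1 * v 2) * (mn a b 0 3 * mn c d 0 3) + 4 * (v 0 * v 3) * (mn a b 1 2 * mn c d 1 2) +
      4 * (v 0 * v 2) * (mn a b 1 3 * mn c d 1 3) + 4 * (v 0 * v 1) * (mn a b 2 3 * mn c d 2 3) +
      v 3 * (2 * v 0 + 2 * v 1 + 2 * v 2 + v 3) * Yc a b c d 0 1 2 +
      v 2 * (2 * v 0 + 2 * v 1 + v 2 + 2 * v 3) * Yc a b c d 0 1 3 +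
      v 1 * (2 * v 0 + v 1 + 2 * v 2 + 2 * v 3) * Yc a b c d 0 2 3 +
      v 0 * (v 0 + 2 * v 1 + 2 * v 2 + 2 * v 3) * Yc a b c d 1 2 3 := by
  simp [Rq, tri, Kf, mn, Yc, Fin.sum_univ_four]
  ring

lemma Rq_sq (α β γ a b c d : Fin 4 → ℝ) :
    Rq (sq α β γ) a b c d =
      (sq α β γ 0 0 1 + sq α β γ 0 1 1) * (mn a b 0 1 * mn c d 0 1) +
      (sq α β γ 0 0 2 + sq α β γ 0 2 2) * (mn a b 0 2 * mn c d 0 2) +
      (sq α β γ 0 0 3 + sq α β γ 0 3 3) * (mn a b 0 3 * mn c d 0 3) +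
      (sq α β γ 1 1 2 + sq α β γ 1 2 2) * (mn a b 1 2 * mn c d 1 2) +
      (sq α β γ 1 1 3 + sq α β γ 1 3 3) * (mn a b 1 3 * mn c d 1 3) +
      (sq α β γ 2 2 3 + sq α β γ 2 3 3) * (mn a b 2 3 * mn c d 2 3) +
      sq α β γ 0 1 2 * Yc a b c d 0 1 2 + sq α β γ 0 1 3 * Yc a b c d 0 1 3 +
      sq α β γ 0 2 3 * Yc a b c d 0 2 3 + sq α β γ 1 2 3 * Yc a b c d 1 2 3 := by
  simp only [Rq, tri, sq, mn, Yc, Fin.sum_univ_four, Pi.mul_apply]
  ring

/-- If the leading order condition holds for all directions `v`, it holds for all cubic forms. -/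
lemma Rq_all {a b c d : Fin 4 → ℝ} (h : ∀ v, Rq (Kf v) a b c d = 0) (α β γ : Fin 4 → ℝ) :
    Rq (sq α β γ) a b c d = 0 := by
  have y3 := h ![0, 0, 0, 1]
  have y2 := h ![0, 0, 1, 0]
  have y1 := h ![0, 1, 0, 0]
  have y0 := h ![1, 0, 0, 0]
  have x01 := h ![0, 0, 1, 1]
  have x02 := h ![0, 1, 0, 1]
  have x03 := h ![0, 1, 1, 0]
  have x12 := h ![1, 0, 0, 1]
  have x13 := h ![1, 0, 1, 0]
  have x23 := h ![1, 1, 0, 0]
  rw [Rq_Kf] at y3 y2 y1 y0 x01 x02 x03 x12 x13 x23
  simp at y3 y2 y1 y0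
  simp only [y0, y1, y2, y3] at x01 x02 x03 x12 x13 x23
  simp at x01 x02 x03 x12 x13 x23
  have z01 : mn a b 0 1 * mn c d 0 1 = 0 := mul_eq_zero.2 x01
  have z02 : mn a b 0 2 * mn c d 0 2 = 0 := mul_eq_zero.2 x02
  have z03 : mn a b 0 3 * mn c d 0 3 = 0 := mul_eq_zero.2 x03
  have z12 : mn a b 1 2 * mn c d 1 2 = 0 := mul_eq_zero.2 x12
  have z13 : mn a b 1 3 * mn c d 1 3 = 0 := mul_eq_zero.2 x13
  have z23 : mn a b 2 3 * mn c d 2 3 = 0 := mul_eq_zero.2 x23
  rw [Rq_sq, z01, z02, z03, z12, z13, z23, y0, y1, y2, y3]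
  ring

lemma tri_sq (α β γ x y w : Fin 4 → ℝ) : tri (sq α β γ) x y w =
    lin α x * lin β y * lin γ w + lin α x * lin γ y * lin β w + lin β x * lin α y * lin γ w +
      lin β x * lin γ y * lin α w + lin γ x * lin α y * lin β w + lin γ x * lin β y * lin α w := by
  simp only [tri, sq, lin, Fin.sum_univ_four]
  ring

/-- The structure of the product in an admissible frame. -/
lemma frame_mul {e ε : Fin 4 → Fin 4 → ℝ} (hd : ∀ m n, lin (ε m) (e n) = if m = n then 1 else 0)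
    (hexp : ∀ w : Fin 4 → ℝ, w = ∑ m, lin (ε m) w • e m)
    (h : ∀ i j k l : Fin 4, i ≠ j → i ≠ k → i ≠ l → j ≠ k → j ≠ l → k ≠ l →
      ∀ v, Rq (Kf v) (e i) (e j) (e k) (e l) = 0) :
    ∃ μ : Fin 4 → ℝ, ∀ i k s, i ≠ k → e i s * e k s = μ k * e i s + μ i * e k s := by
  have hq : ∀ i j k l : Fin 4, i ≠ j → i ≠ k → i ≠ l → j ≠ k → j ≠ l → k ≠ l →
      ∀ α β γ, Rq (sq α β γ) (e i) (e j) (e k) (e l) = 0 :=
    fun i j k l h1 h2 h3 h4 h5 h6 α β γ => Rq_all (h i j k l h1 h2 h3 h4 h5 h6) α β γ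
  have hex : ∀ i j k : Fin 4, i ≠ j → i ≠ k → j ≠ k → ∃ l, i ≠ l ∧ j ≠ l ∧ k ≠ l := by decide
  -- the third components vanish
  have c0 : ∀ a b d : Fin 4, a ≠ b → a ≠ d → b ≠ d → lin (ε a) (e b * e d) = 0 := by
    intro a b d hab had hbd
    obtain ⟨c, hac, hbc, hdc⟩ := hex a b d hab had hbd
    have h1 := hq a b c d hab hac had hbc hbd (Ne.symm hdc) (ε a) (ε a) (ε c)
    unfold Rq at h1
    rw [tri_sq, tri_sq, tri_sq, tri_sq] at h1
    simp only [hd, if_true, if_neg hab, if_neg hac, if_neg had, if_neg hbc, if_neg hbd, if_neg hdc,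
      if_neg (Ne.symm hab), if_neg (Ne.symm hac), if_neg (Ne.symm had), if_neg (Ne.symm hbc),
      if_neg (Ne.symm hbd), if_neg (Ne.symm hdc)] at h1
    rw [mul_comm (e b) (e d)]
    linarith
  -- the other components are constant
  have c1 : ∀ a b d : Fin 4, a ≠ b → a ≠ d → b ≠ d →
      lin (ε a) (e a * e d) = lin (ε b) (e b * e d) := by
    intro a b d hab had hbd
    obtain ⟨c, hac, hbc, hdc⟩ := hex a b d hab had hbd
    have h1 := hq a b c d hab hac had hbc hbd (Ne.symm hdc) (ε a) (ε b) (ε c)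
    unfold Rq at h1
    rw [tri_sq, tri_sq, tri_sq, tri_sq] at h1
    simp only [hd, if_true, if_neg hab, if_neg hac, if_neg had, if_neg hbc, if_neg hbd, if_neg hdc,
      if_neg (Ne.symm hab), if_neg (Ne.symm hac), if_neg (Ne.symm had), if_neg (Ne.symm hbc),
      if_neg (Ne.symm hbd), if_neg (Ne.symm hdc)] at h1
    rw [mul_comm (e a) (e d), mul_comm (e b) (e d)]
    linarith
  have hsucc : ∀ k : Fin 4, k + 1 ≠ k := by decide
  refine ⟨fun k => lin (ε (k + 1)) (e (k + 1) * e k), fun i k s hik => ?_⟩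
  have hμ : ∀ i k : Fin 4, i ≠ k → lin (ε i) (e i * e k) = lin (ε (k + 1)) (e (k + 1) * e k) := by
    intro i k hik
    by_cases h1 : i = k + 1
    · rw [h1]
    · exact c1 i (k + 1) k h1 hik (hsucc k)
  have h1 := hexp (e i * e k)
  have h2 : ∑ m, lin (ε m) (e i * e k) • e m =
      lin (ε i) (e i * e k) • e i + lin (ε k) (e i * e k) • e k := by
    apply Finset.sum_eq_add i k hik
    · intro m _ hm
      rw [c0 m i k hm.1 hm.2 hik, zero_smul]
    · intro h; exact absurd (mem_univ _) h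
    · intro h; exact absurd (mem_univ _) h
  rw [h2, hμ i k hik, mul_comm (e i) (e k), hμ k i (Ne.symm hik)] at h1
  have h3 := congrFun h1 s
  simp only [Pi.mul_apply, Pi.add_apply, Pi.smul_apply, smul_eq_mul] at h3
  rw [mul_comm (e i s)]
  exact h3

/-- Three vectors with disjoint supports, two of which have sum zero. -/
lemma no_three {x y w : Fin 4 → ℝ} (hx : ∃ s, x s ≠ 0) (hy : ∃ s, y s ≠ 0) (hw : ∃ s, w s ≠ 0)
    (hxy : ∀ s, x s * y s = 0) (hxw : ∀ s, x s * w s = 0) (hyw : ∀ s, y s * w s = 0)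
    (sx : ∑ s, x s = 0) (sy : ∑ s, y s = 0) : False := by
  have two : ∀ x : Fin 4 → ℝ, (∃ s, x s ≠ 0) → ∑ s, x s = 0 → ∃ s t, s ≠ t ∧ x s ≠ 0 ∧ x t ≠ 0 := by
    intro x hx sx
    obtain ⟨s, hs⟩ := hx
    by_contra hcon
    push Not at hcon
    apply hs
    have : ∑ t, x t = x s := by
      apply Finset.sum_eq_single s
      · intro t _ hts
        exact hcon s t (Ne.symm hts) hs
      · intro h; exact absurd (mem_univ _) h
    rw [← this, sx]
  obtain ⟨a, b, hab, ha, hb⟩ := two x hx sx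
  obtain ⟨c, d, hcd, hc, hd⟩ := two y hy sy
  obtain ⟨f, hf⟩ := hw
  have n1 : ∀ s t, x s ≠ 0 → y t ≠ 0 → s ≠ t := by
    rintro s t hs ht rfl
    rcases mul_eq_zero.1 (hxy s) with h | h
    · exact hs h
    · exact ht h
  have n2 : ∀ s t, x s ≠ 0 → w t ≠ 0 → s ≠ t := by
    rintro s t hs ht rfl
    rcases mul_eq_zero.1 (hxw s) with h | h
    · exact hs h
    · exact ht h
  have n3 : ∀ s t, y s ≠ 0 → w t ≠ 0 → s ≠ t := by
    rintro s t hs ht rfl
    rcases mul_eq_zero.1 (hyw s) with h | h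
    · exact hs h
    · exact ht h
  have e1 := n1 a c ha hc
  have e2 := n1 a d ha hd
  have e3 := n1 b c hb hc
  have e4 := n1 b d hb hd
  have e5 := n2 a f ha hf
  have e6 := n2 b f hb hf
  have e7 := n3 c f hc hf
  have e8 := n3 d f hd hf
  have hcard : ({a, b, c, d, f} : Finset (Fin 4)).card = 5 := by
    rw [card_insert_of_notMem, card_insert_of_notMem, card_insert_of_notMem,
      card_insert_of_notMem, card_singleton] <;> simp_all
  have := Finset.card_le_univ ({a, b, c, d, f} : Finset (Fin 4))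
  rw [hcard] at this
  simp at this

/-- **No admissible orthogonal frame.** -/
theorem no_frame {e ε : Fin 4 → Fin 4 → ℝ} (hd : ∀ m n, lin (ε m) (e n) = if m = n then 1 else 0)
    (hexp : ∀ w : Fin 4 → ℝ, w = ∑ m, lin (ε m) w • e m)
    (h : ∀ i j k l : Fin 4, i ≠ j → i ≠ k → i ≠ l → j ≠ k → j ≠ l → k ≠ l →
      ∀ v, Rq (Kf v) (e i) (e j) (e k) (e l) = 0)
    (hor : ∀ i k, i ≠ k → gm (fun _ => (1 / 5 : ℝ)) (e i) (e k) = 0) : False := by
  obtain ⟨μ, hμ⟩ := frame_mul hd hexp h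
  have hne : ∀ i, ∃ s, e i s ≠ 0 := by
    intro i
    by_contra hcon
    push Not at hcon
    have h1 := hd i i
    have h2 : e i = 0 := funext hcon
    rw [h2] at h1
    simp [lin] at h1
  by_cases hA : ∃ i k, i ≠ k ∧ μ i ≠ 0 ∧ μ k ≠ 0
  · obtain ⟨i, k, hik, hi, hk⟩ := hA
    have hex : ∀ i k : Fin 4, i ≠ k → ∃ l, i ≠ l ∧ k ≠ l := by decide
    obtain ⟨l, hil, hkl⟩ := hex i k hik
    by_cases hl : μ l = 0
    · obtain ⟨s, hs⟩ := hne l
      have h1 := hμ i k s hik
      have h2 := hμ i l s hil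
      have h3 := hμ k l s hkl
      rw [hl] at h2 h3
      have h4 : e l s * (e i s - μ i) = 0 := by linarith
      rcases mul_eq_zero.1 h4 with h5 | h5
      · exact hs h5
      · have h6 : e i s = μ i := by linarith
        rw [h6] at h1
        have h7 : μ k * μ i = 0 := by linarith
        rcases mul_eq_zero.1 h7 with h8 | h8
        · exact hk h8
        · exact hi h8
    · have key : ∀ s, μ k * e i s = μ i * e k s := by
        intro s
        have h1 := hμ i k s hik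
        have h2 := hμ i l s hil
        have h3 := hμ k l s hkl
        have a1 : (e i s - μ i) * (e k s - μ k) = μ i * μ k := by linear_combination h1
        have a2 : (e i s - μ i) * (e l s - μ l) = μ i * μ l := by linear_combination h2
        have a3 : (e k s - μ k) * (e l s - μ l) = μ k * μ l := by linear_combination h3
        have hkl' : μ k * μ l ≠ 0 := mul_ne_zero hk hl
        have hil' : μ i * μ l ≠ 0 := mul_ne_zero hi hl
        have a4 : (e i s - μ i) ^ 2 = μ i ^ 2 := by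
          apply mul_right_cancel₀ hkl'
          rw [← a3]
          linear_combination (e i s - μ i) * (e l s - μ l) * a1 + μ i * μ k * a2 - μ i ^ 2 * a3
        have a5 : (e k s - μ k) ^ 2 = μ k ^ 2 := by
          apply mul_right_cancel₀ hil'
          rw [← a2]
          linear_combination (e k s - μ k) * (e l s - μ l) * a1 + μ i * μ k * a3 - μ k ^ 2 * a2
        have a6 : ((e i s - μ i) * μ k - (e k s - μ k) * μ i) ^ 2 = 0 := by
          linear_combination μ k ^ 2 * a4 + μ i ^ 2 * a5 - 2 * μ i * μ k * a1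
        have a7 := pow_eq_zero_iff (two_ne_zero) |>.1 a6
        linear_combination a7
      have h1 : lin (ε i) (μ k • e i) = lin (ε i) (μ i • e k) := by
        congr 1
        ext s
        simp only [Pi.smul_apply, smul_eq_mul]
        exact key s
      rw [lin_smul, lin_smul, hd, hd, if_pos rfl, if_neg hik] at h1
      apply hk
      linarith
  · push Not at hA
    have hthree : ∃ a b c : Fin 4, a ≠ b ∧ a ≠ c ∧ b ≠ c ∧ μ a = 0 ∧ μ b = 0 ∧ μ c = 0 := by
      by_cases h0 : ∃ i, μ i ≠ 0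
      · obtain ⟨i, hi⟩ := h0
        have hex : ∀ i : Fin 4, ∃ a b c : Fin 4, a ≠ b ∧ a ≠ c ∧ b ≠ c ∧ i ≠ a ∧ i ≠ b ∧ i ≠ c := by
          decide
        obtain ⟨a, b, c, h1, h2, h3, h4, h5, h6⟩ := hex i
        exact ⟨a, b, c, h1, h2, h3, hA i a h4 hi, hA i b h5 hi, hA i c h6 hi⟩
      · push Not at h0
        exact ⟨0, 1, 2, by decide, by decide, by decide, h0 0, h0 1, h0 2⟩
    obtain ⟨a, b, c, hab, hac, hbc, ha, hb, hc⟩ := hthree
    have pab : ∀ s, e a s * e b s = 0 := by intro s; rw [hμ a b s hab, ha, hb]; ring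
    have pac : ∀ s, e a s * e c s = 0 := by intro s; rw [hμ a c s hac, ha, hc]; ring
    have pbc : ∀ s, e b s * e c s = 0 := by intro s; rw [hμ b c s hbc, hb, hc]; ring
    have sums : ∀ x y : Fin 4 → ℝ, (∀ s, x s * y s = 0) → gm (fun _ => (1 / 5 : ℝ)) x y = 0 →
        (∑ s, x s) * (∑ s, y s) = 0 := by
      intro x y hxy hg
      have h1 : lin (fun _ => (1 / 5 : ℝ)) (x * y) = 0 := by
        simp [lin, hxy]
      have h2 : ∀ x : Fin 4 → ℝ, lin (fun _ => (1 / 5 : ℝ)) x = 1 / 5 * ∑ s, x s := by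
        intro x; rw [lin, mul_sum]
      unfold gm at hg
      rw [h1, h2, h2] at hg
      linarith
    have sab := sums _ _ pab (hor a b hab)
    have sac := sums _ _ pac (hor a c hac)
    have sbc := sums _ _ pbc (hor b c hbc)
    have hba : ∀ s, e b s * e a s = 0 := fun s => by rw [mul_comm]; exact pab s
    have hca : ∀ s, e c s * e a s = 0 := fun s => by rw [mul_comm]; exact pac s
    have hcb : ∀ s, e c s * e b s = 0 := fun s => by rw [mul_comm]; exact pbc s
    rcases mul_eq_zero.1 sab with h1 | h1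
    · rcases mul_eq_zero.1 sbc with h2 | h2
      · exact no_three (hne a) (hne b) (hne c) pab pac pbc h1 h2
      · exact no_three (hne a) (hne c) (hne b) pac pab hcb h1 h2
    · rcases mul_eq_zero.1 sac with h2 | h2
      · exact no_three (hne a) (hne b) (hne c) pab pac pbc h2 h1
      · exact no_three (hne b) (hne c) (hne a) pbc hba hca h1 h2

end Pool.Agent.Q185.OC
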