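import Pool.Agent.Q185.OC.Ex

/-!
# The four-dimensional factor has no orthogonal coordinates
-/

namespace Pool.Agent.Q185.OC

open scoped ContDiff Matrix
open Finset Filter Topology Pool.Agent.Q185.DR

lemma cont_Rq (κ : Fin 4 → Fin 4 → Fin 4 → ℝ) (a b c d : Fin 4) :
    Continuous (fun u : Fin 4 → Fin 4 → ℝ => Rq κ (u a) (u b) (u c) (u d)) := by
  unfold Rq tri
  simp only [Pi.mul_apply]
  fun_prop

lemma cont_gm (m : Fin 4) :
    Continuous (fun p : (Fin 4 → ℝ) × (Fin 4 → Fin 4 → ℝ) => gm p.1 (p.2 m) (p.2 m)) := by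
  unfold gm lin
  simp only [Pi.mul_apply]
  fun_prop

lemma cont_ga (h : Fin 4 → Fin 4 → ℝ) (a b c : Fin 4) :
    Continuous (fun p : (Fin 4 → ℝ) × (Fin 4 → Fin 4 → ℝ) => ga p.1 h (p.2 a) (p.2 b) (p.2 c)) := by
  unfold ga bil lin
  simp only [Pi.mul_apply]
  fun_prop

lemma cont_bil (h : Fin 4 → Fin 4 → ℝ) (a b : Fin 4) :
    Continuous (fun p : (Fin 4 → ℝ) × (Fin 4 → Fin 4 → ℝ) => bil h (p.2 a) (p.2 b)) := by
  unfold bil
  fun_prop

lemma cont_Bq (h : Fin 4 → Fin 4 → ℝ) (i j k l : Fin 4) {p₀ : (Fin 4 → ℝ) × (Fin 4 → Fin 4 → ℝ)}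
    (hp : ∀ m, gm p₀.1 (p₀.2 m) (p₀.2 m) ≠ 0) :
    ContinuousAt (fun p : (Fin 4 → ℝ) × (Fin 4 → Fin 4 → ℝ) => Bq p.1 h p.2 i j k l) p₀ := by
  unfold Bq
  have hb := fun a b => (cont_bil h a b).continuousAt (x := p₀)
  have hg := fun a b c => (cont_ga h a b c).continuousAt (x := p₀)
  have hm := fun m => (cont_gm m).continuousAt (x := p₀)
  refine ContinuousAt.add ?_ (ContinuousAt.sub ?_ ?_)
  · exact ((continuousAt_const.mul (hb i j)).mul (hb k l)).sub
      ((continuousAt_const.mul (hb l j)).mul (hb k i))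
  · refine tendsto_finsetSum _ fun m _ => ?_
    exact ((hg i j m).mul (hg k l m)).div (continuousAt_const.mul (hm m))
      (mul_ne_zero two_ne_zero (hp m))
  · refine tendsto_finsetSum _ fun m _ => ?_
    exact ((hg l j m).mul (hg k i m)).div (continuousAt_const.mul (hm m))
      (mul_ne_zero two_ne_zero (hp m))

/-- **The cube with the metric `∑ f_i dz_i² - df²` admits no orthogonal coordinates.** -/
theorem no_orth : ¬ M₁.AdmitsOrthogonalCoordinates := by
  intro hall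
  obtain ⟨φ, hp, hsub, hs1, hs2, hor⟩ := hall 0 (by intro i; simp)
  let V : TopologicalSpace.Opens (Fin 4 → ℝ) := ⟨φ.target, φ.open_target⟩
  have hsm : ∀ s, ContDiffOn ℝ ∞ (fun x => φ.symm x s) V := fun s => contDiffOn_pi.1 hs2 s
  let Z : Fin 4 → Sm V := fun s => res (fun x => φ.symm x s) (hsm s)
  let c : Sm V := algebraMap ℝ (Sm V) (1 / 5)
  have hc : ∀ l, D l c = 0 := fun l => D_algebraMap l _
  let u : (Fin 4 → ℝ) → Fin 4 → Fin 4 → ℝ :=
    fun x m s => fderiv ℝ (fun y => φ.symm y s) x (Pi.single m 1)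
  have hu : ∀ (q : V) m s, (D m (Z s)).1 q = u q m s := fun q m s => D_res m _ (hsm s) q
  have hdiff : ∀ x ∈ φ.target, DifferentiableAt ℝ φ.symm x := fun x hx =>
    (hs2.contDiffAt (φ.open_target.mem_nhds hx)).differentiableAt (by simp)
  have hu' : ∀ x ∈ φ.target, ∀ w : Fin 4 → ℝ, ∀ s,
      fderiv ℝ φ.symm x w s = fderiv ℝ (fun y => φ.symm y s) x w := by
    intro x hx w s
    have h1 := (hasFDerivAt_pi'.1 (hdiff x hx).hasFDerivAt) s
    rw [h1.fderiv]; rfl
  have hu'' : ∀ x ∈ φ.target, ∀ m, fderiv ℝ φ.symm x (Pi.single m 1) = u x m := by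
    intro x hx m
    ext s
    exact hu' x hx _ s
  -- orthogonality in the ring
  have hevZ : ∀ (q : V), (fun i => ev q (Z i)) = φ.symm q := fun q => rfl
  have hevc : ∀ (q : V), ev q c = 1 / 5 := fun q => rfl
  have hf : ∀ (q : V) s, (Ff c Z s).1 q = Ff (1 / 5) (φ.symm q) s := by
    intro q s
    rw [← ev_apply, map_Ff, hevc, hevZ]
  have hh : ∀ (q : V) s r, (Hf Z s r).1 q = Hf (φ.symm q) s r := by
    intro q s r
    rw [← ev_apply, map_Hf, hevZ]
  have hκ : ∀ (q : V) s r t, (Kf Z s r t).1 q = Kf (φ.symm q) s r t := by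
    intro q s r t
    rw [← ev_apply, map_Kf, hevZ]
  have hor1 : ∀ x ∈ φ.target, ∀ j k, j ≠ k → gm (Ff (1 / 5) (φ.symm x)) (u x j) (u x k) = 0 := by
    intro x hx j k hjk
    have h1 := hor x hx j k hjk
    rw [M₁_inner, hu'' x hx, hu'' x hx] at h1
    exact h1
  have hor2 : ∀ j k, j ≠ k → gm (Ff c Z) (Dv j Z) (Dv k Z) = 0 := by
    intro j k hjk
    rw [eq_zero_iff]
    intro q
    rw [← ev_apply, ev_gm]
    have e1 : (fun s => ev q (Ff c Z s)) = Ff (1 / 5) (φ.symm q) := funext (hf q)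
    have e2 : ∀ m, (fun s => ev q (Dv m Z s)) = u q m := fun m => funext (hu q m)
    rw [e1, e2, e2]
    exact hor1 q q.2 j k hjk
  -- the inverse of the derivative
  have hinv : ∀ x ∈ φ.target, ∀ w : Fin 4 → ℝ,
      w = ∑ m, (fderiv ℝ φ (φ.symm x) w) m • u x m := by
    intro x hx w
    have hy : φ.symm x ∈ φ.source := φ.map_target hx
    have d1 : DifferentiableAt ℝ φ (φ.symm x) :=
      (hs1.contDiffAt (φ.open_source.mem_nhds hy)).differentiableAt (by simp)
    have d2 : HasFDerivAt (φ.symm ∘ φ) ((fderiv ℝ φ.symm x).comp (fderiv ℝ φ (φ.symm x)))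
        (φ.symm x) := by
      apply HasFDerivAt.comp
      · rw [φ.right_inv hx]; exact (hdiff x hx).hasFDerivAt
      · exact d1.hasFDerivAt
    have d3 : HasFDerivAt (φ.symm ∘ φ) (ContinuousLinearMap.id ℝ (Fin 4 → ℝ)) (φ.symm x) := by
      refine (hasFDerivAt_id _).congr_of_eventuallyEq ?_
      filter_upwards [φ.open_source.mem_nhds hy] with y hy'
      exact φ.left_inv hy'
    have h1 := congrArg (fun L => L w) (d2.unique d3)
    simp only [ContinuousLinearMap.comp_apply, ContinuousLinearMap.id_apply] at h1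
    set v := fderiv ℝ φ (φ.symm x) w with hv
    have h2 : v = ∑ m, v m • (Pi.single m (1 : ℝ) : Fin 4 → ℝ) := by
      ext s; simp [Finset.sum_apply, Pi.single_apply]
    conv_lhs => rw [← h1, h2, map_sum]
    refine sum_congr rfl fun m _ => ?_
    rw [map_smul, hu'' x hx]
  have hspan : ∀ x ∈ φ.target, ∀ w : Fin 4 → ℝ, ∃ c : Fin 4 → ℝ, w = ∑ m, c m • u x m :=
    fun x hx w => ⟨_, hinv x hx w⟩
  -- the dual relation
  have hdual : ∀ x ∈ φ.target, ∀ m n, (fderiv ℝ φ (φ.symm x) (u x n)) m = if m = n then 1 else 0 := by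
    intro x hx m n
    have hy : φ.symm x ∈ φ.source := φ.map_target hx
    have d1 : DifferentiableAt ℝ φ (φ.symm x) :=
      (hs1.contDiffAt (φ.open_source.mem_nhds hy)).differentiableAt (by simp)
    have d2 : HasFDerivAt (φ ∘ φ.symm) ((fderiv ℝ φ (φ.symm x)).comp (fderiv ℝ φ.symm x)) x :=
      HasFDerivAt.comp x d1.hasFDerivAt (hdiff x hx).hasFDerivAt
    have d3 : HasFDerivAt (φ ∘ φ.symm) (ContinuousLinearMap.id ℝ (Fin 4 → ℝ)) x := by
      refine (hasFDerivAt_id _).congr_of_eventuallyEq ?_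
      filter_upwards [φ.open_target.mem_nhds hx] with y hy'
      exact φ.right_inv hy'
    have h1 := congrArg (fun L => L (Pi.single n (1 : ℝ))) (d2.unique d3)
    simp only [ContinuousLinearMap.comp_apply, ContinuousLinearMap.id_apply] at h1
    rw [← hu'' x hx, h1, Pi.single_apply]
  have hune : ∀ x ∈ φ.target, ∀ m, u x m ≠ 0 := by
    intro x hx m h0
    have h1 := hdual x hx m m
    rw [h0, map_zero, if_pos rfl] at h1
    exact zero_ne_one h1
  have hpos : ∀ x ∈ φ.target, ∀ m, gm (Ff (1 / 5) (φ.symm x)) (u x m) (u x m) ≠ 0 := by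
    intro x hx m
    have h1 := Matrix.posDef_iff_dotProduct_mulVec.1 (M₁.posDef _ (hsub (φ.map_target hx)))
    have h2 := h1.2 (hune x hx m)
    rw [star_trivial] at h2
    have h3 : u x m ⬝ᵥ (M₁.g (φ.symm x) *ᵥ u x m) = gm (Ff (1 / 5) (φ.symm x)) (u x m) (u x m) := by
      rw [← M₁_inner]; rfl
    rw [h3] at h2
    exact h2.ne'
  -- the curvature identity
  have hid : ∀ x ∈ φ.target, ∀ i j k l : Fin 4, i ≠ j → i ≠ k → i ≠ l → j ≠ k → j ≠ l → k ≠ l →
      Rq (Kf (φ.symm x)) (u x j) (u x k) (u x l) (u x i) =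
        Bq (Ff (1 / 5) (φ.symm x)) (Hf (φ.symm x)) (u x) i j k l := by
    intro x hx i j k l h1 h2 h3 h4 h5 h6
    exact curv (q := (⟨x, hx⟩ : V)) (fun s r => Hf_symm Z s r) (fun s r t => Kf_symm12 Z s r t)
      (fun s r t => Kf_symm23 Z s r t) (fun l s => D_Ff hc Z l s) (fun l s r => D_Hf Z l s r)
      hor2 (hf ⟨x, hx⟩) (hh ⟨x, hx⟩) (hκ ⟨x, hx⟩) (hu ⟨x, hx⟩) (hpos x hx) (hspan x hx)
      h1 h2 h3 h4 h5 h6
  -- the limit
  have hx0 : φ 0 ∈ φ.target := φ.map_source hp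
  have hlim : ∀ i j k l : Fin 4, i ≠ j → i ≠ k → i ≠ l → j ≠ k → j ≠ l → k ≠ l → ∀ v,
      Rq (Kf v) (u (φ 0) j) (u (φ 0) k) (u (φ 0) l) (u (φ 0) i) = 0 := by
    intro i j k l h1 h2 h3 h4 h5 h6 v
    have hline : ContinuousAt (fun t : ℝ => t • v) 0 := by fun_prop
    have hmem : ∀ᶠ t : ℝ in 𝓝 0, t • v ∈ φ.source := by
      apply hline.eventually_mem
      rw [zero_smul]
      exact φ.open_source.mem_nhds hp
    have hφ : ContinuousAt (fun t : ℝ => φ (t • v)) 0 := by
      have : ContinuousAt φ ((0 : ℝ) • v) := by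
        rw [zero_smul]; exact φ.continuousAt hp
      exact ContinuousAt.comp (f := fun t : ℝ => t • v) (g := φ) this hline
    have hucont : ContinuousAt u (φ 0) := by
      rw [continuousAt_pi]
      intro m
      rw [continuousAt_pi]
      intro s
      have := contDiffOn_pderiv (hsm s) m
      exact this.continuousOn.continuousAt (φ.open_target.mem_nhds hx0)
    have hu0 : ContinuousAt (fun t : ℝ => u (φ (t • v))) 0 := by
      have : ContinuousAt u (φ ((0 : ℝ) • v)) := by rw [zero_smul]; exact hucont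
      exact ContinuousAt.comp (f := fun t : ℝ => φ (t • v)) (g := u) this hφ
    have hF0 : ContinuousAt (fun t : ℝ => Ff (1 / 5) (t • v)) 0 := by
      rw [continuousAt_pi]
      intro s
      fin_cases s <;>
      · simp only [Ff, Pi.smul_apply, smul_eq_mul]
        fun_prop
    have hA : ContinuousAt (fun t : ℝ => Rq (Kf v) (u (φ (t • v)) j) (u (φ (t • v)) k)
        (u (φ (t • v)) l) (u (φ (t • v)) i)) 0 :=
      (cont_Rq (Kf v) j k l i).continuousAt.comp hu0
    have hB : ContinuousAt (fun t : ℝ => Bq (Ff (1 / 5) (t • v)) (Hf v) (u (φ (t • v))) i j k l)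
        0 := by
      have hpair : ContinuousAt (fun t : ℝ => (Ff (1 / 5) (t • v), u (φ (t • v)))) 0 :=
        hF0.prodMk hu0
      have h7 : ContinuousAt (fun p : (Fin 4 → ℝ) × (Fin 4 → Fin 4 → ℝ) => Bq p.1 (Hf v) p.2 i j k l)
          (Ff (1 / 5) ((0 : ℝ) • v), u (φ ((0 : ℝ) • v))) := by
        apply cont_Bq
        intro m
        rw [zero_smul]
        have := hpos (φ 0) hx0 m
        rwa [φ.left_inv hp] at this
      exact ContinuousAt.comp (f := fun t : ℝ => (Ff (1 / 5) (t • v), u (φ (t • v))))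
        (g := fun p : (Fin 4 → ℝ) × (Fin 4 → Fin 4 → ℝ) => Bq p.1 (Hf v) p.2 i j k l) h7 hpair
    have hAB : ∀ᶠ t : ℝ in 𝓝[≠] 0, Rq (Kf v) (u (φ (t • v)) j) (u (φ (t • v)) k)
        (u (φ (t • v)) l) (u (φ (t • v)) i) -
        t ^ 4 * Bq (Ff (1 / 5) (t • v)) (Hf v) (u (φ (t • v))) i j k l = 0 := by
      filter_upwards [hmem.filter_mono nhdsWithin_le_nhds, self_mem_nhdsWithin] with t ht ht0
      have h8 := hid (φ (t • v)) (φ.map_source ht) i j k l h1 h2 h3 h4 h5 h6
      rw [φ.left_inv ht] at h8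
      have e1 : Kf (t • v) = fun s r k => t ^ 2 * Kf v s r k := by
        ext s r k; exact Kf_smul t v s r k
      have e2 : Hf (t • v) = fun s r => t ^ 3 * Hf v s r := by
        ext s r; exact Hf_smul t v s r
      rw [e1, e2, Rq_smul, Bq_smul] at h8
      have ht2 : t ^ 2 ≠ 0 := pow_ne_zero 2 ht0
      apply mul_left_cancel₀ ht2
      rw [mul_zero, mul_sub, h8]
      ring
    have hcont : ContinuousAt (fun t : ℝ => Rq (Kf v) (u (φ (t • v)) j) (u (φ (t • v)) k)
        (u (φ (t • v)) l) (u (φ (t • v)) i) -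
        t ^ 4 * Bq (Ff (1 / 5) (t • v)) (Hf v) (u (φ (t • v))) i j k l) 0 :=
      hA.sub ((continuousAt_id.pow 4).mul hB)
    have h9 := tendsto_nhds_unique (hcont.tendsto.mono_left (nhdsWithin_le_nhds (s := {0}ᶜ)))
      ((tendsto_const_nhds (x := (0 : ℝ))).congr' (by
        filter_upwards [hAB] with t ht; exact ht.symm))
    rw [zero_smul] at h9
    linarith
  -- the contradiction
  let ε : Fin 4 → Fin 4 → ℝ := fun m s => (fderiv ℝ φ 0 (Pi.single s 1)) m
  have hε : ∀ m (w : Fin 4 → ℝ), lin (ε m) w = (fderiv ℝ φ 0 w) m := by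
    intro m w
    have h2 : w = ∑ s, w s • (Pi.single s (1 : ℝ) : Fin 4 → ℝ) := by
      ext s; simp [Finset.sum_apply, Pi.single_apply]
    conv_rhs => rw [h2, map_sum, Finset.sum_apply]
    unfold lin
    refine sum_congr rfl fun s _ => ?_
    rw [map_smul]
    simp only [ε, Pi.smul_apply, smul_eq_mul]
    ring
  refine no_frame (e := u (φ 0)) (ε := ε) ?_ ?_ ?_ ?_
  · intro m n
    rw [hε]
    have := hdual (φ 0) hx0 m n
    rwa [φ.left_inv hp] at this
  · intro w
    have := hinv (φ 0) hx0 w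
    rw [φ.left_inv hp] at this
    simp only [hε]
    exact this
  · intro i j k l h1 h2 h3 h4 h5 h6 v
    exact hlim l i j k h3.symm h5.symm h6.symm h1 h2 h4 v
  · intro i k hik
    have h1 := hor1 (φ 0) hx0 i k hik
    rw [φ.left_inv hp] at h1
    have h2 : Ff (1 / 5 : ℝ) (0 : Fin 4 → ℝ) = fun _ => (1 / 5 : ℝ) := by
      ext s; fin_cases s <;> simp [Ff]
    rwa [h2] at h1

end Pool.Agent.Q185.OC
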