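import Pool.Agent.Q185.OC.Form

/-!
# Orthogonal coordinates: the curvature identity at a point
-/

namespace Pool.Agent.Q185.OC

open Finset Pool.Agent.Q185.DR

section Eval

variable {n : ℕ} {U : TopologicalSpace.Opens (Fin n → ℝ)}

/-- Evaluation at a point. -/
noncomputable def ev (q : U) : Sm U →+* ℝ :=
  (Pi.evalRingHom (fun _ : U => ℝ) q).comp (Sm U).val.toRingHom

lemma ev_apply (q : U) (f : Sm U) : ev q f = f.1 q := rfl

lemma ev_lin (q : U) (F a : Fin n → Sm U) :
    ev q (lin F a) = lin (fun s => ev q (F s)) (fun s => ev q (a s)) := by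
  simp [lin, map_sum]

lemma ev_bil (q : U) (H : Fin n → Fin n → Sm U) (a b : Fin n → Sm U) :
    ev q (bil H a b) = bil (fun s r => ev q (H s r)) (fun s => ev q (a s)) (fun s => ev q (b s)) := by
  simp [bil, map_sum]

lemma ev_tri (q : U) (K : Fin n → Fin n → Fin n → Sm U) (a b c : Fin n → Sm U) :
    ev q (tri K a b c) = tri (fun s r t => ev q (K s r t)) (fun s => ev q (a s))
      (fun s => ev q (b s)) (fun s => ev q (c s)) := by
  simp [tri, map_sum]

lemma ev_mul (q : U) (a b : Fin n → Sm U) :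
    (fun s => ev q ((a * b) s)) = (fun s => ev q (a s)) * (fun s => ev q (b s)) := by
  ext s; simp

lemma ev_gm (q : U) (F a b : Fin n → Sm U) :
    ev q (gm F a b) = gm (fun s => ev q (F s)) (fun s => ev q (a s)) (fun s => ev q (b s)) := by
  unfold gm
  rw [map_sub, map_mul, ev_lin, ev_lin, ev_lin, ev_mul]

lemma ev_ga (q : U) (F : Fin n → Sm U) (H : Fin n → Fin n → Sm U) (a b c : Fin n → Sm U) :
    ev q (ga F H a b c) = ga (fun s => ev q (F s)) (fun s r => ev q (H s r)) (fun s => ev q (a s))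
      (fun s => ev q (b s)) (fun s => ev q (c s)) := by
  unfold ga
  rw [map_sub, map_sub, map_add, map_mul, map_mul, ev_bil, ev_bil, ev_bil, ev_bil, ev_lin, ev_mul,
    ev_mul, ev_mul, map_ofNat]

end Eval

section Linear

variable {n : ℕ}

lemma lin_smul (F a : Fin n → ℝ) (c : ℝ) : lin F (c • a) = c * lin F a := by
  unfold lin
  rw [mul_sum]
  refine sum_congr rfl fun s _ => ?_
  simp only [Pi.smul_apply, smul_eq_mul]; ring

lemma bil_smul_left (H : Fin n → Fin n → ℝ) (a b : Fin n → ℝ) (c : ℝ) :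
    bil H (c • a) b = c * bil H a b := by
  unfold bil
  rw [mul_sum]
  refine sum_congr rfl fun s _ => ?_
  rw [mul_sum]
  refine sum_congr rfl fun r _ => ?_
  simp only [Pi.smul_apply, smul_eq_mul]; ring

lemma bil_smul_right (H : Fin n → Fin n → ℝ) (a b : Fin n → ℝ) (c : ℝ) :
    bil H a (c • b) = c * bil H a b := by
  unfold bil
  rw [mul_sum]
  refine sum_congr rfl fun s _ => ?_
  rw [mul_sum]
  refine sum_congr rfl fun r _ => ?_
  simp only [Pi.smul_apply, smul_eq_mul]; ring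

/-- The metric as a linear form of the first vector. -/
def gmL (F b : Fin n → ℝ) : (Fin n → ℝ) →ₗ[ℝ] ℝ where
  toFun a := gm F a b
  map_add' x y := by
    unfold gm; rw [add_mul, lin_add, lin_add]; ring
  map_smul' c x := by
    unfold gm; rw [smul_mul_assoc, lin_smul, lin_smul]; simp only [smul_eq_mul, RingHom.id_apply]
    ring

/-- The Christoffel symbol as a linear form of the last vector. -/
def gaL (F : Fin n → ℝ) (H : Fin n → Fin n → ℝ) (a b : Fin n → ℝ) : (Fin n → ℝ) →ₗ[ℝ] ℝ where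
  toFun c := ga F H a b c
  map_add' x y := by
    unfold ga
    rw [mul_add, mul_add, bil_add_right, bil_add_right, bil_add_left, lin_add]; ring
  map_smul' c x := by
    unfold ga
    rw [mul_smul_comm, mul_smul_comm, bil_smul_right, bil_smul_right, bil_smul_left, lin_smul]
    simp only [smul_eq_mul, RingHom.id_apply]
    ring

lemma expand {F : Fin n → ℝ} {u : Fin n → Fin n → ℝ}
    (hor : ∀ j k, j ≠ k → gm F (u j) (u k) = 0) (hpos : ∀ m, gm F (u m) (u m) ≠ 0)
    (hspan : ∀ w : Fin n → ℝ, ∃ c : Fin n → ℝ, w = ∑ m, c m • u m)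
    (L : (Fin n → ℝ) →ₗ[ℝ] ℝ) (a : Fin n → ℝ) :
    L a = ∑ m, L (u m) * gm F a (u m) / gm F (u m) (u m) := by
  obtain ⟨c, hc⟩ := hspan a
  have h1 : ∀ m, gm F a (u m) = c m * gm F (u m) (u m) := by
    intro m
    have h2 : gm F a (u m) = gmL F (u m) a := rfl
    rw [h2, hc, map_sum]
    rw [Finset.sum_eq_single m]
    · rw [map_smul]; rfl
    · intro b _ hb
      rw [map_smul]
      have : gmL F (u m) (u b) = gm F (u b) (u m) := rfl
      rw [this, hor b m hb, smul_zero]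
    · intro h; exact absurd (mem_univ _) h
  conv_lhs => rw [hc, map_sum]
  refine sum_congr rfl fun m _ => ?_
  rw [h1, map_smul, smul_eq_mul]
  field_simp [hpos m]

lemma bracket {F : Fin n → ℝ} {H : Fin n → Fin n → ℝ} {u : Fin n → Fin n → ℝ}
    (hor : ∀ j k, j ≠ k → gm F (u j) (u k) = 0) (hpos : ∀ m, gm F (u m) (u m) ≠ 0)
    (hspan : ∀ w : Fin n → ℝ, ∃ c : Fin n → ℝ, w = ∑ m, c m • u m)
    {i j k l : Fin n} (hik : i ≠ k) (hil : i ≠ l) (hjk : j ≠ k) (hjl : j ≠ l)
    {w₁ w₂ : Fin n → ℝ}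
    (h1 : ∀ m, m ≠ i → m ≠ j → 2 * gm F w₁ (u m) + ga F H (u i) (u j) (u m) = 0)
    (h2 : ∀ m, m ≠ k → m ≠ l → 2 * gm F w₂ (u m) + ga F H (u k) (u l) (u m) = 0) :
    2 * gm F w₁ w₂ + ga F H (u k) (u l) w₁ + ga F H (u i) (u j) w₂ =
      - ∑ m, ga F H (u i) (u j) (u m) * ga F H (u k) (u l) (u m) / (2 * gm F (u m) (u m)) := by
  have e1 : gm F w₁ w₂ = ∑ m, gm F (u m) w₂ * gm F w₁ (u m) / gm F (u m) (u m) :=
    expand hor hpos hspan (gmL F w₂) w₁
  have e2 : ga F H (u k) (u l) w₁ =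
      ∑ m, ga F H (u k) (u l) (u m) * gm F w₁ (u m) / gm F (u m) (u m) :=
    expand hor hpos hspan (gaL F H (u k) (u l)) w₁
  have e3 : ga F H (u i) (u j) w₂ =
      ∑ m, ga F H (u i) (u j) (u m) * gm F w₂ (u m) / gm F (u m) (u m) :=
    expand hor hpos hspan (gaL F H (u i) (u j)) w₂
  rw [e1, e2, e3, mul_sum, ← sum_add_distrib, ← sum_add_distrib, ← sum_neg_distrib]
  refine sum_congr rfl fun m _ => ?_
  have hm := hpos m
  rw [gm_comm F (u m) w₂]
  have key : (2 * gm F w₁ (u m) + ga F H (u i) (u j) (u m)) *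
      (2 * gm F w₂ (u m) + ga F H (u k) (u l) (u m)) = 0 := by
    by_cases hmi : m = i
    · subst hmi; rw [h2 m hik hil, mul_zero]
    by_cases hmj : m = j
    · subst hmj; rw [h2 m hjk hjl, mul_zero]
    rw [h1 m hmi hmj, zero_mul]
  field_simp
  linear_combination key

end Linear

/-- **The curvature identity** in orthogonal coordinates at a point. -/
theorem curv {n : ℕ} {U : TopologicalSpace.Opens (Fin n → ℝ)}
    {Z F : Fin n → Sm U} {H : Fin n → Fin n → Sm U} {K : Fin n → Fin n → Fin n → Sm U}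
    (hs : ∀ s r, H s r = H r s) (hK12 : ∀ s r t, K s r t = K r s t)
    (hK23 : ∀ s r t, K s r t = K s t r)
    (hF : ∀ l s, D l (F s) = ∑ r, H s r * D l (Z r))
    (hH : ∀ l s r, D l (H s r) = ∑ t, K s r t * D l (Z t))
    (hor : ∀ j k, j ≠ k → gm F (Dv j Z) (Dv k Z) = 0) (q : U)
    {f : Fin n → ℝ} {h : Fin n → Fin n → ℝ} {κ : Fin n → Fin n → Fin n → ℝ}
    {u : Fin n → Fin n → ℝ} (hf : ∀ s, (F s).1 q = f s) (hh : ∀ s r, (H s r).1 q = h s r)
    (hκ : ∀ s r t, (K s r t).1 q = κ s r t) (hu : ∀ m s, (D m (Z s)).1 q = u m s)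
    (hpos : ∀ m, gm f (u m) (u m) ≠ 0)
    (hspan : ∀ w : Fin n → ℝ, ∃ c : Fin n → ℝ, w = ∑ m, c m • u m)
    {i j k l : Fin n} (hij : i ≠ j) (hik : i ≠ k) (hil : i ≠ l) (hjk : j ≠ k) (hjl : j ≠ l)
    (hkl : k ≠ l) :
    tri κ (u j) (u i * u k) (u l) - tri κ (u k) (u i * u j) (u l) - tri κ (u j) (u l * u k) (u i) +
      tri κ (u k) (u l * u j) (u i) =
    2 * bil h (u i) (u j) * bil h (u k) (u l) - 2 * bil h (u l) (u j) * bil h (u k) (u i) +
      (∑ m, ga f h (u i) (u j) (u m) * ga f h (u k) (u l) (u m) / (2 * gm f (u m) (u m)) -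
        ∑ m, ga f h (u l) (u j) (u m) * ga f h (u k) (u i) (u m) / (2 * gm f (u m) (u m))) := by
  have hf' : (fun s => ev q (F s)) = f := funext hf
  have hh' : (fun s r => ev q (H s r)) = h := by ext s r; exact hh s r
  have hκ' : (fun s r t => ev q (K s r t)) = κ := by ext s r t; exact hκ s r t
  have hu' : ∀ m, (fun s => ev q (Dv m Z s)) = u m := fun m => funext (hu m)
  have hor' : ∀ j k, j ≠ k → gm f (u j) (u k) = 0 := by
    intro a b hab
    have h1 := congrArg (ev q) (hor a b hab)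
    rw [ev_gm, hf', hu', hu', map_zero] at h1
    exact h1
  let w : Fin n → Fin n → Fin n → ℝ := fun a b s => ev q (Dv a (Dv b Z) s)
  have hfirst : ∀ a b m, a ≠ b → m ≠ a → m ≠ b →
      2 * gm f (w a b) (u m) + ga f h (u a) (u b) (u m) = 0 := by
    intro a b m hab hma hmb
    have h1 := congrArg (ev q) (first hs hF hor hab (Ne.symm hma) (Ne.symm hmb))
    rw [map_add, map_mul, ev_gm, ev_ga, hf', hh', hu', hu', hu', map_zero, map_ofNat] at h1
    exact h1
  have h2 := congrArg (ev q) (second hs hK12 hK23 hF hH hor hij hik hjk (Ne.symm hjl)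
    (Ne.symm hkl))
  simp only [map_add, map_mul, map_sub, ev_gm, ev_ga, ev_tri, ev_bil, hf', hh', hκ', hu',
    map_ofNat, ev_mul] at h2
  have b1 := bracket (w₁ := w i j) (w₂ := w k l) (H := h) hor' hpos hspan hik hil hjk hjl
    (fun m h1 h2 => hfirst i j m hij h1 h2) (fun m h1 h2 => hfirst k l m hkl h1 h2)
  have b2 := bracket (w₁ := w l j) (w₂ := w k i) (H := h) hor' hpos hspan (Ne.symm hkl)
    (Ne.symm hil) hjk (Ne.symm hij)
    (fun m h1 h2 => hfirst l j m (Ne.symm hjl) h1 h2)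
    (fun m h1 h2 => hfirst k i m (Ne.symm hik) h1 h2)
  have h3 : 2 * gm f (w i j) (w k l) + ga f h (u k) (u l) (w i j) + ga f h (u i) (u j) (w k l) +
      (tri κ (u j) (u i * u k) (u l) - tri κ (u k) (u i * u j) (u l) -
        2 * bil h (u i) (u j) * bil h (u k) (u l)) =
      2 * gm f (w l j) (w k i) + ga f h (u k) (u i) (w l j) + ga f h (u l) (u j) (w k i) +
      (tri κ (u j) (u l * u k) (u i) - tri κ (u k) (u l * u j) (u i) -
        2 * bil h (u l) (u j) * bil h (u k) (u i)) := h2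
  rw [b1, b2] at h3
  linear_combination h3

end Pool.Agent.Q185.OC
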