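import Pool.Agent.Q185.OC.Point

/-!
# The function `f = c ∑ z + (∏ z) (∑ z)` in four variables
-/

namespace Pool.Agent.Q185.OC

open Finset Pool.Agent.Q185.DR

section Arrays

variable {R : Type*} [CommRing R]

/-- The gradient. -/
def Ff (c : R) (z : Fin 4 → R) : Fin 4 → R :=
  ![c + z 1 * z 2 * z 3 * (2 * z 0 + z 1 + z 2 + z 3),
    c + z 0 * z 2 * z 3 * (z 0 + 2 * z 1 + z 2 + z 3),
    c + z 0 * z 1 * z 3 * (z 0 + z 1 + 2 * z 2 + z 3),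
    c + z 0 * z 1 * z 2 * (z 0 + z 1 + z 2 + 2 * z 3)]

/-- The Hessian. -/
def Hf (z : Fin 4 → R) : Fin 4 → Fin 4 → R :=
  ![![2 * (z 1 * z 2 * z 3), z 2 * z 3 * (2 * z 0 + 2 * z 1 + z 2 + z 3), z 1 * z 3 * (2 * z 0 + z 1 + 2 * z 2 + z 3), z 1 * z 2 * (2 * z 0 + z 1 + z 2 + 2 * z 3)],
    ![z 2 * z 3 * (2 * z 0 + 2 * z 1 + z 2 + z 3), 2 * (z 0 * z 2 * z 3), z 0 * z 3 * (z 0 + 2 * z 1 + 2 * z 2 + z 3), z 0 * z 2 * (z 0 + 2 * z 1 + z 2 + 2 * z 3)],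
    ![z 1 * z 3 * (2 * z 0 + z 1 + 2 * z 2 + z 3), z 0 * z 3 * (z 0 + 2 * z 1 + 2 * z 2 + z 3), 2 * (z 0 * z 1 * z 3), z 0 * z 1 * (z 0 + z 1 + 2 * z 2 + 2 * z 3)],
    ![z 1 * z 2 * (2 * z 0 + z 1 + z 2 + 2 * z 3), z 0 * z 2 * (z 0 + 2 * z 1 + z 2 + 2 * z 3), z 0 * z 1 * (z 0 + z 1 + 2 * z 2 + 2 * z 3), 2 * (z 0 * z 1 * z 2)]]

/-- The third derivatives. -/
def Kf (z : Fin 4 → R) : Fin 4 → Fin 4 → Fin 4 → R :=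
  ![![![0, 2 * (z 2 * z 3), 2 * (z 1 * z 3), 2 * (z 1 * z 2)],
      ![2 * (z 2 * z 3), 2 * (z 2 * z 3), z 3 * (2 * z 0 + 2 * z 1 + 2 * z 2 + z 3), z 2 * (2 * z 0 + 2 * z 1 + z 2 + 2 * z 3)],
      ![2 * (z 1 * z 3), z 3 * (2 * z 0 + 2 * z 1 + 2 * z 2 + z 3), 2 * (z 1 * z 3), z 1 * (2 * z 0 + z 1 + 2 * z 2 + 2 * z 3)],
      ![2 * (z 1 * z 2), z 2 * (2 * z 0 + 2 * z 1 + z 2 + 2 * z 3), z 1 * (2 * z 0 + z 1 + 2 * z 2 + 2 * z 3), 2 * (z 1 * z 2)]],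
    ![![2 * (z 2 * z 3), 2 * (z 2 * z 3), z 3 * (2 * z 0 + 2 * z 1 + 2 * z 2 + z 3), z 2 * (2 * z 0 + 2 * z 1 + z 2 + 2 * z 3)],
      ![2 * (z 2 * z 3), 0, 2 * (z 0 * z 3), 2 * (z 0 * z 2)],
      ![z 3 * (2 * z 0 + 2 * z 1 + 2 * z 2 + z 3), 2 * (z 0 * z 3), 2 * (z 0 * z 3), z 0 * (z 0 + 2 * z 1 + 2 * z 2 + 2 * z 3)],
      ![z 2 * (2 * z 0 + 2 * z 1 + z 2 + 2 * z 3), 2 * (z 0 * z 2), z 0 * (z 0 + 2 * z 1 + 2 * z 2 + 2 * z 3), 2 * (z 0 * z 2)]],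
    ![![2 * (z 1 * z 3), z 3 * (2 * z 0 + 2 * z 1 + 2 * z 2 + z 3), 2 * (z 1 * z 3), z 1 * (2 * z 0 + z 1 + 2 * z 2 + 2 * z 3)],
      ![z 3 * (2 * z 0 + 2 * z 1 + 2 * z 2 + z 3), 2 * (z 0 * z 3), 2 * (z 0 * z 3), z 0 * (z 0 + 2 * z 1 + 2 * z 2 + 2 * z 3)],
      ![2 * (z 1 * z 3), 2 * (z 0 * z 3), 0, 2 * (z 0 * z 1)],
      ![z 1 * (2 * z 0 + z 1 + 2 * z 2 + 2 * z 3), z 0 * (z 0 + 2 * z 1 + 2 * z 2 + 2 * z 3), 2 * (z 0 * z 1), 2 * (z 0 * z 1)]],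
    ![![2 * (z 1 * z 2), z 2 * (2 * z 0 + 2 * z 1 + z 2 + 2 * z 3), z 1 * (2 * z 0 + z 1 + 2 * z 2 + 2 * z 3), 2 * (z 1 * z 2)],
      ![z 2 * (2 * z 0 + 2 * z 1 + z 2 + 2 * z 3), 2 * (z 0 * z 2), z 0 * (z 0 + 2 * z 1 + 2 * z 2 + 2 * z 3), 2 * (z 0 * z 2)],
      ![z 1 * (2 * z 0 + z 1 + 2 * z 2 + 2 * z 3), z 0 * (z 0 + 2 * z 1 + 2 * z 2 + 2 * z 3), 2 * (z 0 * z 1), 2 * (z 0 * z 1)],
      ![2 * (z 1 * z 2), 2 * (z 0 * z 2), 2 * (z 0 * z 1), 0]]]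

lemma Hf_symm (z : Fin 4 → R) (s r : Fin 4) : Hf z s r = Hf z r s := by
  fin_cases s <;> fin_cases r <;> rfl

lemma Kf_symm12 (z : Fin 4 → R) (s r t : Fin 4) : Kf z s r t = Kf z r s t := by
  fin_cases s <;> fin_cases r <;> fin_cases t <;> rfl

lemma Kf_symm23 (z : Fin 4 → R) (s r t : Fin 4) : Kf z s r t = Kf z s t r := by
  fin_cases s <;> fin_cases r <;> fin_cases t <;> rfl

end Arrays

section Deriv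

variable {U : TopologicalSpace.Opens (Fin 4 → ℝ)}

lemma D_Ff {c : Sm U} (hc : ∀ l, D l c = 0) (Z : Fin 4 → Sm U) (l s : Fin 4) :
    D l (Ff c Z s) = ∑ r, Hf Z s r * D l (Z r) := by
  have d2 : D l (2 : Sm U) = 0 := D_ofNat l 2
  fin_cases s <;>
  · simp [Ff, Hf, Fin.sum_univ_four, hc, d2]
    ring

lemma D_Hf (Z : Fin 4 → Sm U) (l s r : Fin 4) :
    D l (Hf Z s r) = ∑ t, Kf Z s r t * D l (Z t) := by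
  have d2 : D l (2 : Sm U) = 0 := D_ofNat l 2
  fin_cases s <;> fin_cases r <;>
  · simp [Hf, Kf, Fin.sum_univ_four, d2]
    ring

end Deriv

section Homog

lemma Hf_smul (t : ℝ) (z : Fin 4 → ℝ) (s r : Fin 4) : Hf (t • z) s r = t ^ 3 * Hf z s r := by
  fin_cases s <;> fin_cases r <;>
  · simp [Hf]
    ring

lemma Kf_smul (t : ℝ) (z : Fin 4 → ℝ) (s r k : Fin 4) :
    Kf (t • z) s r k = t ^ 2 * Kf z s r k := by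
  fin_cases s <;> fin_cases r <;> fin_cases k <;>
  · simp [Kf]
    try ring

end Homog

end Pool.Agent.Q185.OC
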