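import Pool.Agent.Q185.OC.NoOrth

/-!
# Orthogonal coordinates on the product with a line
-/

namespace Pool.Agent.Q185.OC

open scoped ContDiff Matrix
open Finset

/-- The second factor: the real line. -/
noncomputable def M₂ : LocalRiem Unit where
  U := Set.univ
  isOpen := isOpen_univ
  g _ := 1
  smooth _ _ := contDiffOn_const
  posDef _ _ := Matrix.PosDef.one

lemma M₂_inner (z u v : Unit → ℝ) : M₂.inner z u v = u () * v () := by
  simp [LocalRiem.inner, M₂, dotProduct]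

/-- The function `f(z) = (z₀ + z₁ + z₂ + z₃) (1/5 + z₀ z₁ z₂ z₃)`. -/
noncomputable def fun4 (z : Fin 4 → ℝ) : ℝ := (∑ i, z i) * (1 / 5 + ∏ i, z i)

lemma contDiff_fun4 : ContDiff ℝ ∞ fun4 := by
  unfold fun4
  exact ContDiff.mul (by fun_prop) (contDiff_const.add (contDiff_prod fun j _ => by fun_prop))

/-- The derivative of `f`. -/
noncomputable def dfun4 (z : Fin 4 → ℝ) : (Fin 4 → ℝ) →L[ℝ] ℝ :=
  ∑ s, gradF z s • ContinuousLinearMap.proj (R := ℝ) (φ := fun _ : Fin 4 => ℝ) s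

lemma dfun4_apply (z w : Fin 4 → ℝ) : dfun4 z w = ∑ s, gradF z s * w s := by
  simp [dfun4]

lemma hasFDerivAt_fun4 (z : Fin 4 → ℝ) : HasFDerivAt fun4 (dfun4 z) z := by
  have hp : ∀ i, HasFDerivAt (fun z : Fin 4 → ℝ => z i)
      (ContinuousLinearMap.proj (R := ℝ) (φ := fun _ : Fin 4 => ℝ) i) z := fun i =>
    (ContinuousLinearMap.proj (R := ℝ) (φ := fun _ : Fin 4 => ℝ) i).hasFDerivAt
  have hs := (((hp 0).add (hp 1)).add (hp 2)).add (hp 3)
  have hm := (((hp 0).mul (hp 1)).mul (hp 2)).mul (hp 3)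
  have h1 := hs.mul (hm.const_add (1 / 5 : ℝ))
  have e1 : fun4 = fun z : Fin 4 → ℝ =>
      (z 0 + z 1 + z 2 + z 3) * (1 / 5 + z 0 * z 1 * z 2 * z 3) := by
    ext z; simp [fun4, Fin.sum_univ_four, Fin.prod_univ_four]
  rw [e1]
  refine h1.congr_fderiv ?_
  ext w
  rw [dfun4_apply, gradF_eq]
  simp [Ff, Fin.sum_univ_four]
  ring

/-- The differences of the coordinates. -/
noncomputable def dmap : (Fin 4 ⊕ Unit → ℝ) →L[ℝ] (Fin 4 → ℝ) :=
  ContinuousLinearMap.pi fun s =>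
    ContinuousLinearMap.proj (R := ℝ) (φ := fun _ : Fin 4 ⊕ Unit => ℝ) (Sum.inl s) -
    ContinuousLinearMap.proj (R := ℝ) (φ := fun _ : Fin 4 ⊕ Unit => ℝ) (Sum.inr ())

lemma dmap_apply (y : Fin 4 ⊕ Unit → ℝ) (s : Fin 4) :
    dmap y s = y (Sum.inl s) - y (Sum.inr ()) := rfl

/-- The inverse of the chart. -/
noncomputable def Psi (y : Fin 4 ⊕ Unit → ℝ) : Fin 4 ⊕ Unit → ℝ :=
  Sum.elim (dmap y) (fun _ => y (Sum.inr ()) + fun4 (dmap y))

/-- The chart. -/
noncomputable def Phi (z : Fin 4 ⊕ Unit → ℝ) : Fin 4 ⊕ Unit → ℝ :=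
  Sum.elim (fun s => z (Sum.inl s) - fun4 (fun i => z (Sum.inl i)) + z (Sum.inr ()))
    (fun _ => z (Sum.inr ()) - fun4 (fun i => z (Sum.inl i)))

lemma contDiff_Psi : ContDiff ℝ ∞ Psi := by
  rw [contDiff_pi]
  rintro (s | s)
  · show ContDiff ℝ ∞ (fun y : Fin 4 ⊕ Unit → ℝ => y (Sum.inl s) - y (Sum.inr ()))
    fun_prop
  · show ContDiff ℝ ∞ (fun y : Fin 4 ⊕ Unit → ℝ => y (Sum.inr ()) + fun4 (dmap y))
    exact ContDiff.add (by fun_prop) (contDiff_fun4.comp dmap.contDiff)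

lemma contDiff_Phi : ContDiff ℝ ∞ Phi := by
  have h1 : ContDiff ℝ ∞ (fun z : Fin 4 ⊕ Unit → ℝ => fun4 (fun i => z (Sum.inl i))) :=
    contDiff_fun4.comp (by fun_prop)
  rw [contDiff_pi]
  rintro (s | s)
  · show ContDiff ℝ ∞ (fun z : Fin 4 ⊕ Unit → ℝ =>
      z (Sum.inl s) - fun4 (fun i => z (Sum.inl i)) + z (Sum.inr ()))
    exact ContDiff.add (ContDiff.sub (by fun_prop) h1) (by fun_prop)
  · show ContDiff ℝ ∞ (fun z : Fin 4 ⊕ Unit → ℝ =>
      z (Sum.inr ()) - fun4 (fun i => z (Sum.inl i)))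
    exact ContDiff.sub (by fun_prop) h1

lemma Psi_Phi (z : Fin 4 ⊕ Unit → ℝ) : Psi (Phi z) = z := by
  have h1 : dmap (Phi z) = fun i => z (Sum.inl i) := by
    ext s
    rw [dmap_apply]
    simp only [Phi, Sum.elim_inl, Sum.elim_inr]
    ring
  ext (s | s)
  · exact congrFun h1 s
  · show Phi z (Sum.inr ()) + fun4 (dmap (Phi z)) = z (Sum.inr ())
    rw [h1]
    simp only [Phi, Sum.elim_inr]
    ring

lemma Phi_Psi (y : Fin 4 ⊕ Unit → ℝ) : Phi (Psi y) = y := by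
  have h1 : (fun i => Psi y (Sum.inl i)) = dmap y := rfl
  ext (s | s)
  · show Psi y (Sum.inl s) - fun4 (fun i => Psi y (Sum.inl i)) + Psi y (Sum.inr ()) = _
    rw [h1]
    simp only [Psi, Sum.elim_inl, Sum.elim_inr, dmap_apply]
    ring
  · show Psi y (Sum.inr ()) - fun4 (fun i => Psi y (Sum.inl i)) = _
    rw [h1]
    simp only [Psi, Sum.elim_inr]
    ring

/-- The global diffeomorphism. -/
noncomputable def homeo : (Fin 4 ⊕ Unit → ℝ) ≃ₜ (Fin 4 ⊕ Unit → ℝ) where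
  toFun := Phi
  invFun := Psi
  left_inv := Psi_Phi
  right_inv := Phi_Psi
  continuous_toFun := contDiff_Phi.continuous
  continuous_invFun := contDiff_Psi.continuous

lemma fderiv_Psi_inl (y w : Fin 4 ⊕ Unit → ℝ) (s : Fin 4) :
    fderiv ℝ Psi y w (Sum.inl s) = w (Sum.inl s) - w (Sum.inr ()) := by
  have hd : DifferentiableAt ℝ Psi y := contDiff_Psi.differentiable (by simp) y
  have h1 := (hasFDerivAt_pi'.1 hd.hasFDerivAt) (Sum.inl s)
  have h2 : HasFDerivAt (fun y => Psi y (Sum.inl s))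
      ((ContinuousLinearMap.proj (R := ℝ) (φ := fun _ : Fin 4 => ℝ) s).comp dmap) y :=
    ((ContinuousLinearMap.proj (R := ℝ) (φ := fun _ : Fin 4 => ℝ) s).comp dmap).hasFDerivAt
  exact congrArg (fun L => L w) (h1.unique h2)

lemma fderiv_Psi_inr (y w : Fin 4 ⊕ Unit → ℝ) (s : Unit) :
    fderiv ℝ Psi y w (Sum.inr s) =
      w (Sum.inr ()) + ∑ s, gradF (dmap y) s * (w (Sum.inl s) - w (Sum.inr ())) := by
  have hd : DifferentiableAt ℝ Psi y := contDiff_Psi.differentiable (by simp) y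
  have h1 := (hasFDerivAt_pi'.1 hd.hasFDerivAt) (Sum.inr s)
  have h2 : HasFDerivAt (fun y => Psi y (Sum.inr s))
      (ContinuousLinearMap.proj (R := ℝ) (φ := fun _ : Fin 4 ⊕ Unit => ℝ) (Sum.inr ()) +
        (dfun4 (dmap y)).comp dmap) y :=
    (ContinuousLinearMap.proj (R := ℝ) (φ := fun _ : Fin 4 ⊕ Unit => ℝ)
      (Sum.inr ())).hasFDerivAt.add
      ((hasFDerivAt_fun4 (dmap y)).comp y dmap.hasFDerivAt)
  have h3 := congrArg (fun L => L w) (h1.unique h2)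
  have h4 : fderiv ℝ Psi y w (Sum.inr s) = w (Sum.inr ()) + dfun4 (dmap y) (dmap w) := h3
  rw [h4, dfun4_apply]
  rfl

lemma orth_Psi (y : Fin 4 ⊕ Unit → ℝ) (i j : Fin 4 ⊕ Unit) (hij : i ≠ j) :
    (M₁.prod M₂).inner (Psi y) (fderiv ℝ Psi y (Pi.single i 1)) (fderiv ℝ Psi y (Pi.single j 1)) =
      0 := by
  rw [LocalRiem.prod_inner, M₂_inner, M₁_inner]
  have e1 : (fun i => Psi y (Sum.inl i)) = dmap y := rfl
  rw [e1, ← gradF_eq]
  simp only [fderiv_Psi_inl, fderiv_Psi_inr]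
  set G := gradF (dmap y)
  have key : ∀ a b : Fin 4 ⊕ Unit → ℝ,
      gm G (fun s => a (Sum.inl s) - a (Sum.inr ())) (fun s => b (Sum.inl s) - b (Sum.inr ())) +
      (a (Sum.inr ()) + ∑ s, G s * (a (Sum.inl s) - a (Sum.inr ()))) *
      (b (Sum.inr ()) + ∑ s, G s * (b (Sum.inl s) - b (Sum.inr ()))) =
      ∑ s, G s * a (Sum.inl s) * b (Sum.inl s) + (1 - ∑ s, G s) * a (Sum.inr ()) * b (Sum.inr ()) := by
    intro a b
    simp only [gm, lin, Fin.sum_univ_four, Pi.mul_apply]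
    ring
  rw [key]
  rcases i with i | i <;> rcases j with j | j
  · have hij' : i ≠ j := fun h => hij (by rw [h])
    have h1 : ∀ s, G s * (Pi.single (Sum.inl i) 1 : Fin 4 ⊕ Unit → ℝ) (Sum.inl s) *
        (Pi.single (Sum.inl j) 1 : Fin 4 ⊕ Unit → ℝ) (Sum.inl s) = 0 := by
      intro s
      by_cases h : s = i
      · subst h
        rw [Pi.single_eq_of_ne (i := Sum.inl j) (i' := Sum.inl s) (by simpa using hij')]
        ring
      · rw [Pi.single_eq_of_ne (i := Sum.inl i) (i' := Sum.inl s) (by simpa using h)]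
        ring
    simp [h1]
  · simp
  · simp
  · exact absurd rfl hij

/-- The product admits orthogonal coordinates. -/
theorem prod_orth : (M₁.prod M₂).AdmitsOrthogonalCoordinates := by
  intro p hp
  refine ⟨homeo.toOpenPartialHomeomorph.restrOpen _ (M₁.prod M₂).isOpen, ?_, ?_, ?_, ?_, ?_⟩
  · simpa using hp
  · simp
  · exact contDiff_Phi.contDiffOn
  · exact contDiff_Psi.contDiffOn
  · intro x _ i j hij
    exact orth_Psi x i j hij

/-- The domain of the first factor is convex. -/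
theorem convex_M₁ : Convex ℝ M₁.U := by
  have : M₁.U = ⋂ i, {z : Fin 4 → ℝ | |z i| < 1 / 4} := by
    ext z; simp [M₁]
  rw [this]
  refine convex_iInter fun i => ?_
  have h1 : {z : Fin 4 → ℝ | |z i| < 1 / 4} =
      (LinearMap.proj (R := ℝ) (φ := fun _ : Fin 4 => ℝ) i) ⁻¹' (Set.Ioo (-(1 / 4)) (1 / 4)) := by
    ext z; simp [abs_lt]
  rw [h1]
  exact (convex_Ioo _ _).linear_preimage _

end Pool.Agent.Q185.OC
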